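import Mathlib
import Pool.Agent.Q1.M6f.GlueJ

set_option autoImplicit false
open MeasureTheory Set Filter Topology

/-! Translation invariance of rectangle integrals is a local property on connected open sets. -/

namespace Pool.Agent.H66.W

open Pool.Agent.Q1.M6f.Glue

lemma TI.mono {Ω Ω' : Set ℂ} {g : ℂ → ℂ} (h : TI Ω g) (hs : Ω' ⊆ Ω) : TI Ω' g :=
  fun a b c d x y hab hcd h1 h2 => h a b c d x y hab hcd (h1.trans hs) (h2.trans hs)

lemma JJ_congr {g g' : ℂ → ℂ} {a b c d : ℝ} (hab : a ≤ b) (hcd : c ≤ d)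
    (h : ∀ z ∈ Icc a b ×ℂ Icc c d, g z = g' z) : JJ g a b c d = JJ g' a b c d := by
  have hc : c ∈ Icc c d := ⟨le_rfl, hcd⟩
  have hd : d ∈ Icc c d := ⟨hcd, le_rfl⟩
  have ha : a ∈ Icc a b := ⟨le_rfl, hab⟩
  have hb : b ∈ Icc a b := ⟨hab, le_rfl⟩
  have hor : ∀ y ∈ Icc c d, (∫ x in a..b, g (x + y * Complex.I)) =
      ∫ x in a..b, g' (x + y * Complex.I) := by
    intro y hy
    refine intervalIntegral.integral_congr fun x hx => ?_
    rw [uIcc_of_le hab] at hx
    exact h _ (Q1.M6f.Glue.mem_rect hx hy)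
  have ver : ∀ x ∈ Icc a b, (∫ y in c..d, g (x + y * Complex.I)) =
      ∫ y in c..d, g' (x + y * Complex.I) := by
    intro x hx
    refine intervalIntegral.integral_congr fun y hy => ?_
    rw [uIcc_of_le hcd] at hy
    exact h _ (Q1.M6f.Glue.mem_rect hx hy)
  unfold JJ
  rw [hor c hc, hor d hd, ver a ha, ver b hb]

lemma TI.congr {Ω : Set ℂ} {g g' : ℂ → ℂ} (h : TI Ω g) (he : ∀ z ∈ Ω, g' z = g z) : TI Ω g' := by
  intro a b c d x y hab hcd h1 h2
  rw [JJ_congr hab.le hcd.le fun z hz => he z (h1 hz),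
    JJ_congr (by linarith) (by linarith) fun z hz => he z (h2 hz)]
  exact h a b c d x y hab hcd h1 h2

/-- **approximation**: translation invariance passes to limits of the increments -/
theorem TI_of_approx {Ω : Set ℂ} {h : ℂ → ℂ} (hh : ContinuousOn h Ω)
    (H : ∀ ε > 0, ∃ g : ℂ → ℂ, ContinuousOn g Ω ∧ TI Ω g ∧ ∀ z ∈ Ω, ∀ w ∈ Ω,
      ‖(h z - h w) - (g z - g w)‖ ≤ ε) : TI Ω h := by
  intro a b c d x y hab hcd h1 h2
  rw [← sub_eq_zero, ← norm_eq_zero]
  refine le_antisymm (le_of_forall_pos_le_add fun ε hε => ?_) (norm_nonneg _)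
  set S : ℝ := 2 * ((b - a) + (d - c)) with hS
  have hS0 : 0 < S := by
    have : 0 < b - a := by linarith
    have : 0 < d - c := by linarith
    positivity
  obtain ⟨g, hg, hT, hc⟩ := H (ε / S) (by positivity)
  have hdiff : ContinuousOn (fun z => (1 : ℂ) * h z + (-1) * g z) Ω :=
    (continuousOn_const.mul hh).add (continuousOn_const.mul hg)
  have key : ∀ a b c d : ℝ, a ≤ b → c ≤ d → Icc a b ×ℂ Icc c d ⊆ Ω →
      ‖JJ h a b c d - JJ g a b c d‖ ≤ ε / S * (b - a) + ε / S * (d - c) := by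
    intro a b c d hab hcd hR
    have e := JJ_lin hh hg 1 (-1) hab hcd hR
    have e2 : JJ h a b c d - JJ g a b c d = JJ (fun z => (1 : ℂ) * h z + (-1) * g z) a b c d := by
      rw [e]; ring
    rw [e2]
    refine JJ_le hdiff hab hcd hR fun z hz z' hz' => ?_
    have := hc z (hR hz) z' (hR hz')
    convert this using 2
    ring
  have k1 := key a b c d hab.le hcd.le h1
  have k2 := key (a + x) (b + x) (c + y) (d + y) (by linarith) (by linarith) h2
  have e3 : JJ h a b c d - JJ h (a + x) (b + x) (c + y) (d + y) =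
      (JJ h a b c d - JJ g a b c d) -
      (JJ h (a + x) (b + x) (c + y) (d + y) - JJ g (a + x) (b + x) (c + y) (d + y)) := by
    rw [hT a b c d x y hab hcd h1 h2]
    ring
  rw [e3, zero_add]
  refine (norm_sub_le _ _).trans ((add_le_add k1 k2).trans (le_of_eq ?_))
  rw [hS]
  have hne : (b - a) + (d - c) ≠ 0 := by
    have : 0 < (b - a) + (d - c) := by linarith
    exact this.ne'
  field_simp
  ring

/-- **local translation invariance is global** on connected open sets -/
theorem TI_of_local {Ω : Set ℂ} {h : ℂ → ℂ} (hΩ : IsOpen Ω) (hc : IsPreconnected Ω)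
    (hh : ContinuousOn h Ω) (hloc : ∀ z ∈ Ω, ∃ r > 0, TI (Metric.ball z r) h) : TI Ω h := by
  intro a b c d x y hab hcd h1 h2
  -- the compact connected set
  have hzR : (a : ℂ) + c * Complex.I ∈ Icc a b ×ℂ Icc c d :=
    Q1.M6f.Glue.mem_rect ⟨le_rfl, hab.le⟩ ⟨le_rfl, hcd.le⟩
  have hzR' : ((a + x : ℝ) : ℂ) + (c + y : ℝ) * Complex.I ∈
      Icc (a + x) (b + x) ×ℂ Icc (c + y) (d + y) :=
    Q1.M6f.Glue.mem_rect ⟨le_rfl, by linarith⟩ ⟨le_rfl, by linarith⟩
  have hconn : IsConnected Ω := ⟨⟨_, h1 hzR⟩, hc⟩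
  have hpath := (hΩ.isConnected_iff_isPathConnected.1 hconn).joinedIn _ (h1 hzR) _ (h2 hzR')
  obtain ⟨γ, hγ⟩ := hpath
  set K : Set ℂ := (Icc a b ×ℂ Icc c d) ∪ (range γ ∪ Icc (a + x) (b + x) ×ℂ Icc (c + y) (d + y))
    with hK
  have hRc : ∀ a b c d : ℝ, IsCompact (Icc a b ×ℂ Icc c d) := fun a b c d =>
    isCompact_Icc.reProdIm isCompact_Icc
  have hRp : ∀ a b c d : ℝ, IsPreconnected (Icc a b ×ℂ Icc c d) := fun a b c d =>
    (((convex_Icc a b).linear_preimage Complex.reLm).inter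
      ((convex_Icc c d).linear_preimage Complex.imLm)).isPreconnected
  have hKc : IsCompact K := (hRc _ _ _ _).union ((isCompact_range γ.continuous).union (hRc _ _ _ _))
  have hKΩ : K ⊆ Ω := by
    rintro z (hz | hz | hz)
    · exact h1 hz
    · obtain ⟨t, rfl⟩ := hz
      exact hγ t
    · exact h2 hz
  have hKp : IsPreconnected K := by
    refine (hRp a b c d).union _ hzR (Or.inl ⟨0, γ.source⟩) ?_
    exact (isPreconnected_range γ.continuous).union _ ⟨1, γ.target⟩ hzR' (hRp _ _ _ _)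
  -- Lebesgue number
  choose! r hr0 hr using hloc
  obtain ⟨δ, hδ, hleb⟩ := lebesgue_number_lemma_of_metric (c := fun z : Ω => Metric.ball (z : ℂ) (r z))
    hKc (fun z => Metric.isOpen_ball) (fun z hz => mem_iUnion.2 ⟨⟨z, hKΩ hz⟩,
      Metric.mem_ball_self (hr0 z (hKΩ hz))⟩)
  have hTIb : ∀ z ∈ K, Metric.ball z δ ⊆ Ω → TI (Metric.ball z δ) h := by
    intro z hz _
    obtain ⟨i, hi⟩ := hleb z hz
    exact TI.mono (hr i i.2) hi
  have hTIb' : ∀ z ∈ K, TI (Metric.ball z δ) h := by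
    intro z hz
    obtain ⟨i, hi⟩ := hleb z hz
    exact TI.mono (hr i i.2) hi
  -- subdivision
  obtain ⟨m, hm⟩ := exists_nat_gt (2 * ((b - a) + (d - c)) / δ)
  have hm0 : (0 : ℝ) < m := by
    refine lt_of_le_of_lt ?_ hm
    have : 0 < b - a := by linarith
    have : 0 < d - c := by linarith
    positivity
  have hmN : 0 < m := by exact_mod_cast hm0
  set s := (b - a) / m with hs
  set t := (d - c) / m with ht
  have hs0 : 0 < s := div_pos (by linarith) hm0
  have ht0 : 0 < t := div_pos (by linarith) hm0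
  have hst : s + t < δ / 2 := by
    rw [hs, ht, ← add_div, div_lt_iff₀ hm0]
    rw [div_lt_iff₀ hδ] at hm
    linarith
  have hms : (m : ℝ) * s = b - a := by rw [hs]; field_simp
  have hmt : (m : ℝ) * t = d - c := by rw [ht]; field_simp
  set Φ : ℂ → ℂ := fun z => JJ h z.re (z.re + s) z.im (z.im + t) with hΦ
  have hsmall : ∀ z w : ℂ, dist w z < δ / 2 →
      Icc w.re (w.re + s) ×ℂ Icc w.im (w.im + t) ⊆ Metric.ball z δ := by
    intro z w hzw ζ hζ
    rw [Complex.mem_reProdIm] at hζ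
    rw [Metric.mem_ball]
    have h3 : dist ζ w ≤ s + t := by
      rw [dist_eq_norm]
      refine (Complex.norm_le_abs_re_add_abs_im _).trans ?_
      rw [Complex.sub_re, Complex.sub_im]
      refine add_le_add ?_ ?_
      · rw [abs_le]; constructor <;> linarith [hζ.1.1, hζ.1.2]
      · rw [abs_le]; constructor <;> linarith [hζ.2.1, hζ.2.2]
    calc dist ζ z ≤ dist ζ w + dist w z := dist_triangle _ _ _
      _ < δ := by linarith
  have hloc2 : ∀ z ∈ K, ∀ w, dist w z < δ / 2 → Φ w = Φ z := by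
    intro z hz w hw
    have h3 := hTIb' z hz z.re (z.re + s) z.im (z.im + t) (w.re - z.re) (w.im - z.im)
      (by linarith) (by linarith) (hsmall z z (by simpa using half_pos hδ)) (by
        have e1 : z.re + (w.re - z.re) = w.re := by ring
        have e2 : z.re + s + (w.re - z.re) = w.re + s := by ring
        have e3 : z.im + (w.im - z.im) = w.im := by ring
        have e4 : z.im + t + (w.im - z.im) = w.im + t := by ring
        rw [e1, e2, e3, e4]
        exact hsmall z w hw)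
    have e1 : z.re + (w.re - z.re) = w.re := by ring
    have e2 : z.re + s + (w.re - z.re) = w.re + s := by ring
    have e3 : z.im + (w.im - z.im) = w.im := by ring
    have e4 : z.im + t + (w.im - z.im) = w.im + t := by ring
    rw [e1, e2, e3, e4] at h3
    exact h3.symm
  have hconst : ∀ z ∈ K, ∀ w ∈ K, Φ z = Φ w := by
    intro z hz w hw
    refine hKp.induction₂ (fun z w => Φ z = Φ w) ?_ ?_ ?_ hz hw
    · intro z hz
      have h3 : ∀ᶠ w in 𝓝[K] z, dist w z < δ / 2 :=
        mem_nhdsWithin_of_mem_nhds (Metric.ball_mem_nhds z (half_pos hδ))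
      exact h3.mono fun w hw => (hloc2 z hz w hw).symm
    · intro z w v _ _ _ h3 h4
      exact h3.trans h4
    · intro z w _ _ h3
      exact h3.symm
  -- both rectangles
  have hrect : ∀ a' b' c' d' : ℝ, b' - a' = b - a → d' - c' = d - c → Icc a' b' ×ℂ Icc c' d' ⊆ K →
      ∀ z0 ∈ K, JJ h a' b' c' d' = (m : ℂ) * ((m : ℂ) * Φ z0) := by
    intro a' b' c' d' hba hdc hsub z0 hz0
    rw [JJ_split hh (by linarith) (by linarith) (hsub.trans hKΩ) hmN, hba, hdc]
    have h3 : ∀ i ∈ Finset.range m, ∀ k ∈ Finset.range m,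
        JJ h (a' + i * s) (a' + (i + 1 : ℕ) * s) (c' + k * t) (c' + (k + 1 : ℕ) * t) = Φ z0 := by
      intro i hi k hk
      have hi' : ((i : ℝ) + 1) ≤ m := by exact_mod_cast Finset.mem_range.1 hi
      have hk' : ((k : ℝ) + 1) ≤ m := by exact_mod_cast Finset.mem_range.1 hk
      have hi0 : (0 : ℝ) ≤ i := Nat.cast_nonneg _
      have hk0 : (0 : ℝ) ≤ k := Nat.cast_nonneg _
      set ζ : ℂ := ((a' + i * s : ℝ) : ℂ) + ((c' + k * t : ℝ) : ℂ) * Complex.I with hζ
      have hre : ζ.re = a' + i * s := by simp [hζ]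
      have him : ζ.im = c' + k * t := by simp [hζ]
      have hζK : ζ ∈ K := by
        apply hsub
        refine Q1.M6f.Glue.mem_rect ⟨?_, ?_⟩ ⟨?_, ?_⟩
        · nlinarith
        · nlinarith
        · nlinarith
        · nlinarith
      rw [← hconst ζ hζK z0 hz0]
      simp only [hΦ]
      rw [hre, him]
      congr 1
      · push_cast; ring
      · push_cast; ring
    rw [Finset.sum_congr rfl fun i hi => Finset.sum_congr rfl fun k hk => h3 i hi k hk]
    rw [Finset.sum_const, Finset.sum_const, Finset.card_range, nsmul_eq_mul, nsmul_eq_mul]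
  have hz0 : (a : ℂ) + c * Complex.I ∈ K := Or.inl hzR
  rw [hrect a b c d rfl rfl (fun z hz => Or.inl hz) _ hz0,
    hrect (a + x) (b + x) (c + y) (d + y) (by ring) (by ring) (fun z hz => Or.inr (Or.inr hz)) _ hz0]

end Pool.Agent.H66.W
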