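import Mathlib
import Pool.Agent.H60.Q1.HalfArms
import Pool.Agent.H65.Dom.Dec

set_option autoImplicit false
open Finset

/-! One arm in a quadrant (axis parallel sides), annulus form, at density one half, part 1: the arm can be
led to the boundary row. -/

namespace Pool.Agent.H66.W

open Pool.Agent.H75.Perc Pool.Agent.H75.TwoArm Pool.Agent.H75.Four Pool.Agent.H49.Perc
open Pool.Agent.H99.NC Pool.Agent.H60.Q1

/-- labels of the quadrant box with corner `p` -/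
noncomputable def QB (p : ℤ × ℤ) (t : ℤ) : Finset (ℤ × ℤ) := Bx p.1 (p.1 + t) p.2 (p.2 + t)

/-- open arm in the quadrant box -/
def QA (p : ℤ × ℤ) (ρ t : ℤ) (ω : Finset (ℤ × ℤ)) : Prop :=
  ∃ u v : ℤ × ℤ, inB p.1 (p.1 + ρ) p.2 (p.2 + ρ) u ∧ (v.1 = p.1 + t ∨ v.2 = p.2 + t) ∧
    Co (ω ∩ QB p t) u v

/-- open arm in the quadrant above the row of `q`, starting with the vertical edge above `q + (s, 0)` -/
def OB (q : ℤ × ℤ) (t s : ℤ) (ω : Finset (ℤ × ℤ)) : Prop :=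
  ((2 * (q.1 + s), 2 * q.2 + 1) : ℤ × ℤ) ∈ ω ∧ ∃ v : ℤ × ℤ, (v.1 = q.1 + t ∨ v.2 = q.2 + 1 + t) ∧
    Co (ω ∩ QB (q.1, q.2 + 1) t) (q.1 + s, q.2 + 1) v

lemma QA_inc (p : ℤ × ℤ) (ρ t : ℤ) : Inc (QA p ρ t) := by
  rintro ω ω' h ⟨u, v, h1, h2, h3⟩
  exact ⟨u, v, h1, h2, h3.mono (inter_subset_inter_right h)⟩

/-- an open path which leaves the box `X` from the boundary, part in the box -/
lemma leave {η : Finset (ℤ × ℤ)} {a b c d a' b' c' d' : ℤ} {u w : ℤ × ℤ}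
    (hη : η ⊆ Bx a b c d) (h : Co η w u) (hw : inB a' b' c' d' w) (hu : ¬ inB a' b' c' d' u) :
    ∃ y, inB a' b' c' d' y ∧ Co (η ∩ Bx a' b' c' d') w y ∧
      ((a < a' ∧ y.1 = a') ∨ (b' < b ∧ y.1 = b') ∨ (c < c' ∧ y.2 = c') ∨ (d' < d ∧ y.2 = d')) ∧
      ∃ y', Ad η y y' ∧ ¬ inB a' b' c' d' y' := by
  obtain ⟨y, y', d1, d2, d3, d4, -⟩ := exit_co (X := inB a' b' c' d') h hw hu
  refine ⟨y, d1, d4.box (fun z hz => hz) hw, ?_, y', d3, d2⟩
  have h1 := (d3.inB hη).2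
  have h2 := unit_cases d3.1
  unfold inB at d1 d2 h1
  omega

/-- **gluing at the corner**: the arm is led to the boundary row. -/
lemma glue_corner {ρ t : ℤ} (hρ : 1 ≤ ρ) (ht : 3 * ρ < t) {q : ℤ × ℤ} {ω : Finset (ℤ × ℤ)}
    (hA : QA (q.1, q.2 + 1) ρ t ω)
    (hV : VC (q.1 + ρ + 1) (q.1 + 3 * ρ) q.2 (q.2 + 1 + 3 * ρ) ω)
    (hH : HC q.1 (q.1 + 3 * ρ) (q.2 + ρ + 2) (q.2 + 1 + 3 * ρ) ω) :
    ∃ s ∈ Icc 0 (3 * ρ), OB q t s ω := by
  obtain ⟨u, v, hu, hv, huv⟩ := hA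
  obtain ⟨a, b, ha, ha2, hb2, hab⟩ := hV
  obtain ⟨c, d, hc, hc1, hd1, hcd⟩ := hH
  simp only at hu hv
  have hb := hab.inB inter_subset_right ha
  have hd := hcd.inB inter_subset_right hc
  -- last exit of the vertical crossing from the boundary row
  obtain ⟨z, hz, hbz, -, z', hzz, hz'⟩ := leave (a' := q.1 + ρ + 1) (b' := q.1 + 3 * ρ)
    (c' := q.2 + 1) (d' := q.2 + 1 + 3 * ρ) inter_subset_right hab.symm
    (by unfold inB at hb ⊢; omega) (by unfold inB; omega)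
  have hz'in := (hzz.inB inter_subset_right).2
  have hun := unit_cases hzz.1
  have hz2 : z.2 = q.2 + 1 ∧ z'.2 = q.2 ∧ z'.1 = z.1 := by
    unfold inB at hz hz' hz'in; omega
  have hlab : ((2 * z.1, 2 * q.2 + 1) : ℤ × ℤ) ∈ ω := by
    have h1 := (mem_inter.1 hzz.2).1
    have e : z + z' = (2 * z.1, 2 * q.2 + 1) := by
      refine Prod.ext ?_ ?_ <;> simp only [Prod.fst_add, Prod.snd_add] <;> omega
    rwa [e] at h1
  set V := Bx (q.1 + ρ + 1) (q.1 + 3 * ρ) (q.2 + 1) (q.2 + 1 + 3 * ρ) with hVd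
  have hbz' : Co (ω ∩ V) z b := (hbz.mono (inter_subset_inter_right inter_subset_left)).symm
  -- the horizontal crossing in the same box
  obtain ⟨y3, hy3, hdy3, hy3', -⟩ := leave (a' := q.1 + ρ + 1) (b' := q.1 + 3 * ρ)
    (c' := q.2 + 1) (d' := q.2 + 1 + 3 * ρ) inter_subset_right hcd.symm
    (by unfold inB at hd ⊢; omega) (by unfold inB; omega)
  have hy31 : y3.1 = q.1 + ρ + 1 := by
    unfold inB at hy3; omega
  have hdy : Co (ω ∩ V) y3 d := (hdy3.mono (inter_subset_inter_right inter_subset_left)).symm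
  have hVQ : ω ∩ V ⊆ ω ∩ QB (q.1, q.2 + 1) t := by
    refine inter_subset_inter_left ?_
    unfold QB
    exact Bx_sub (by simp only; omega) (by simp only; omega) (by simp only; omega)
      (by simp only; omega)
  have hHQ : ω ∩ Bx q.1 (q.1 + 3 * ρ) (q.2 + ρ + 2) (q.2 + 1 + 3 * ρ) ⊆
      ω ∩ QB (q.1, q.2 + 1) t := by
    refine inter_subset_inter_left ?_
    unfold QB
    exact Bx_sub (by simp only; omega) (by simp only; omega) (by simp only; omega)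
      (by simp only; omega)
  have hzd : Co (ω ∩ QB (q.1, q.2 + 1) t) z d := by
    obtain ⟨x, x1, x2⟩ := cross_co inter_subset_right inter_subset_right hy3 hz hdy hbz' hy31 hd1
      hz2.1 hb2
    exact (x2.mono hVQ).trans ((x1.symm.trans hdy).mono hVQ)
  -- the arm up to the exit from the box
  have hQ : ω ∩ QB (q.1, q.2 + 1) t ⊆ Bx q.1 (q.1 + t) (q.2 + 1) (q.2 + 1 + t) :=
    inter_subset_right
  obtain ⟨w, hw, huw, -, w', hww, hw'⟩ := leave (a' := q.1) (b' := q.1 + 3 * ρ - 1)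
    (c' := q.2 + 1) (d' := q.2 + 1 + 3 * ρ - 1) hQ huv (by unfold inB at hu ⊢; omega)
    (by unfold inB; omega)
  have hw'in := (hww.inB hQ).2
  have hwun := unit_cases hww.1
  set W := (ω ∩ QB (q.1, q.2 + 1) t) ∩ Bx q.1 (q.1 + 3 * ρ) (q.2 + 1) (q.2 + 1 + 3 * ρ) with hW
  have hwB : inB q.1 (q.1 + 3 * ρ) (q.2 + 1) (q.2 + 1 + 3 * ρ) w := by unfold inB at hw ⊢; omega
  have hw'B : inB q.1 (q.1 + 3 * ρ) (q.2 + 1) (q.2 + 1 + 3 * ρ) w' := by
    unfold inB at hw'in hw ⊢; omega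
  have huw' : Co W u w' := by
    refine (huw.mono (inter_subset_inter_left (Bx_sub le_rfl (by omega) le_rfl (by omega)))).tail
      ⟨hww.1, mem_inter.2 ⟨hww.2, add_mem_Bx hww.1 hwB hw'B⟩⟩
  have huB : inB q.1 (q.1 + 3 * ρ) (q.2 + 1) (q.2 + 1 + 3 * ρ) u := by unfold inB at hu ⊢; omega
  have hside : w'.1 = q.1 + 3 * ρ ∨ w'.2 = q.2 + 1 + 3 * ρ := by
    unfold inB at hw hw' hw'in; omega
  have hw'v : Co (ω ∩ QB (q.1, q.2 + 1) t) w' v :=
    (huw'.mono inter_subset_left).symm.trans huv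
  have key : Co (ω ∩ QB (q.1, q.2 + 1) t) z w' := by
    rcases hside with hs | hs
    · obtain ⟨y, hy, hwy, hy1, -⟩ := leave (a' := q.1 + ρ + 1) (b' := q.1 + 3 * ρ)
        (c' := q.2 + 1) (d' := q.2 + 1 + 3 * ρ) inter_subset_right huw'.symm
        (by unfold inB at hw'B ⊢; omega) (by unfold inB at hu ⊢; omega)
      have hy1 : y.1 = q.1 + ρ + 1 := by
        unfold inB at hy; omega
      obtain ⟨x, x1, x2⟩ := cross_co (ω1 := W ∩ V) inter_subset_right inter_subset_right hy hz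
        hwy.symm hbz' hy1 hs hz2.1 hb2
      exact (x2.mono hVQ).trans
        ((x1.symm.trans hwy.symm).mono (inter_subset_left.trans inter_subset_left))
    · obtain ⟨y, hy, hwy, hy1, -⟩ := leave (a' := q.1) (b' := q.1 + 3 * ρ)
        (c' := q.2 + ρ + 2) (d' := q.2 + 1 + 3 * ρ) inter_subset_right huw'.symm
        (by unfold inB at hw'B ⊢; omega) (by unfold inB at hu ⊢; omega)
      have hy1 : y.2 = q.2 + ρ + 2 := by
        unfold inB at hy; omega
      obtain ⟨x, x1, x2⟩ := cross_co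
        (ω2 := W ∩ Bx q.1 (q.1 + 3 * ρ) (q.2 + ρ + 2) (q.2 + 1 + 3 * ρ))
        inter_subset_right inter_subset_right hc hy hcd hwy.symm hc1 hd1 hy1 hs
      have h1 : Co (ω ∩ QB (q.1, q.2 + 1) t) d x := ((hcd.symm.trans x1)).mono hHQ
      exact (hzd.trans h1).trans
        ((x2.symm.trans hwy.symm).mono (inter_subset_left.trans inter_subset_left))
  refine ⟨z.1 - q.1, by rw [mem_Icc]; unfold inB at hz; omega, ?_, v, hv, ?_⟩
  · rwa [add_sub_cancel]
  · have e : ((q.1 + (z.1 - q.1), q.2 + 1) : ℤ × ℤ) = z := by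
      refine Prod.ext ?_ ?_ <;> simp only <;> omega
    rw [e]
    exact key.trans hw'v

end Pool.Agent.H66.W
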