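import Mathlib
import Pool.Agent.H66.W.Quad
import Pool.Agent.H99.NC.RingP

set_option autoImplicit false
open Finset

/-! One arm in a quadrant, part 2: probabilities of the led arm, of both colours. -/

namespace Pool.Agent.H66.W

open Pool.Agent.H75.Perc Pool.Agent.H75.TwoArm Pool.Agent.H75.Four Pool.Agent.H49.Perc
open Pool.Agent.H99.NC Pool.Agent.H60.Q1

/-- probability of the arm in the quadrant -/
noncomputable def al (ρ t : ℤ) : ℝ := Pr (QB 0 t) (QA 0 ρ t)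

lemma al_nonneg (ρ t : ℤ) : 0 ≤ al ρ t := Pr_nonneg _ _

lemma al_le_one (ρ t : ℤ) : al ρ t ≤ 1 := Pr_le_one _ _

lemma QB_tr {p : ℤ × ℤ} {t : ℤ} (e : ℤ × ℤ) : e ∈ QB p t ↔ (syT p).G' e ∈ QB 0 t := by
  unfold QB syT
  rw [mem_Bx, mem_Bx]
  simp only [Prod.fst_zero, Prod.snd_zero]
  omega

lemma QA_tr {p : ℤ × ℤ} {ρ t : ℤ} {ω : Finset (ℤ × ℤ)} :
    QA p ρ t (ω.map (syT p).G) ↔ QA 0 ρ t ω := by
  unfold QA
  rw [(syT p).map_inter ω (E1 := QB 0 t) (E2 := QB p t) QB_tr]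
  constructor
  · rintro ⟨u, v, h1, h2, h3⟩
    refine ⟨u - p, v - p, ?_, ?_, ?_⟩
    · unfold inB at h1 ⊢
      simp only [Prod.fst_sub, Prod.snd_sub, Prod.fst_zero, Prod.snd_zero]
      omega
    · simp only [Prod.fst_sub, Prod.snd_sub, Prod.fst_zero, Prod.snd_zero]
      omega
    · rw [← (syT p).co_iff]
      unfold syT at h3 ⊢
      simp only at h3 ⊢
      rwa [sub_add_cancel, sub_add_cancel]
  · rintro ⟨u, v, h1, h2, h3⟩
    refine ⟨u + p, v + p, ?_, ?_, ?_⟩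
    · unfold inB at h1 ⊢
      simp only [Prod.fst_zero, Prod.snd_zero, Prod.fst_add, Prod.snd_add] at h1 ⊢
      omega
    · simp only [Prod.fst_zero, Prod.snd_zero, Prod.fst_add, Prod.snd_add] at h2 ⊢
      omega
    · rw [← (syT p).co_iff] at h3
      exact h3

lemma QA_inter {p : ℤ × ℤ} {ρ t : ℤ} {ω : Finset (ℤ × ℤ)} :
    QA p ρ t (ω ∩ QB p t) ↔ QA p ρ t ω := by
  unfold QA
  rw [inter_assoc, inter_self]

/-- the probability does not depend on the corner and on the domain -/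
lemma Pr_QA {p : ℤ × ℤ} {ρ t : ℤ} {E : Finset (ℤ × ℤ)} (h : QB p t ⊆ E) :
    Pr E (QA p ρ t) = al ρ t := by
  rw [Pr_congr (B := fun ω => QA p ρ t (ω ∩ QB p t)) fun ω _ => QA_inter.symm, Pr_restrict h]
  have h1 := (syT p).Pr (E1 := QB 0 t) (E2 := QB p t) QB_tr (QA p ρ t)
  rw [h1]
  exact Pr_congr fun ω _ => QA_tr

/-- ambient labels of the led arm -/
noncomputable def AB (q : ℤ × ℤ) (t : ℤ) : Finset (ℤ × ℤ) := Bx q.1 (q.1 + t) q.2 (q.2 + 1 + t)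

/-- some led arm -/
def OE (q : ℤ × ℤ) (ρ t : ℤ) (ω : Finset (ℤ × ℤ)) : Prop := ∃ s ∈ Icc 0 (3 * ρ), OB q t s ω

/-- **lower bound for the led arm** -/
theorem OE_lower : ∃ c : ℝ, 0 < c ∧ ∀ (q : ℤ × ℤ) (ρ t : ℤ), 1 ≤ ρ → 3 * ρ < t →
    c * al ρ t ≤ Pr (AB q t) (OE q ρ t) := by
  obtain ⟨c, hc, h⟩ := rsw_q 2
  refine ⟨c * c, by positivity, fun q ρ t hρ ht => ?_⟩
  have hq : Qh (fun _ : ℤ × ℤ => (1 / 2 : ℝ)) := fun _ => by norm_num
  have h1 := (h _ hq (AB q t) (q.1 + ρ + 1) (q.1 + 3 * ρ) q.2 (q.2 + 1 + 3 * ρ) (by omega)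
    (by omega) (Bx_sub (by omega) (by omega) le_rfl (by omega))).2 (by push_cast; omega)
  have h2 := (h _ hq (AB q t) q.1 (q.1 + 3 * ρ) (q.2 + ρ + 2) (q.2 + 1 + 3 * ρ) (by omega)
    (by omega) (Bx_sub (by omega) (by omega) (by omega) (by omega))).1 (by push_cast; omega)
  rw [PrP_half] at h1 h2
  have h3 : Pr (AB q t) (QA (q.1, q.2 + 1) ρ t) = al ρ t := Pr_QA (by
    unfold QB AB
    exact Bx_sub (by simp only; omega) (by simp only; omega) (by simp only; omega)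
      (by simp only; omega))
  have h4 := harris3 (AB q t) (QA_inc (q.1, q.2 + 1) ρ t)
    (VC_inc (q.1 + ρ + 1) (q.1 + 3 * ρ) q.2 (q.2 + 1 + 3 * ρ))
    (HC_inc q.1 (q.1 + 3 * ρ) (q.2 + ρ + 2) (q.2 + 1 + 3 * ρ))
  rw [h3] at h4
  refine le_trans ?_ (h4.trans (Pr_mono fun ω _ h5 => glue_corner hρ ht h5.1 h5.2.1 h5.2.2))
  have h5 : c * c ≤ Pr (AB q t) (VC (q.1 + ρ + 1) (q.1 + 3 * ρ) q.2 (q.2 + 1 + 3 * ρ)) *
      Pr (AB q t) (HC q.1 (q.1 + 3 * ρ) (q.2 + ρ + 2) (q.2 + 1 + 3 * ρ)) :=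
    mul_le_mul h1 h2 hc.le (hc.le.trans h1)
  calc c * c * al ρ t = al ρ t * (c * c) := by ring
    _ ≤ _ := by
      rw [mul_assoc]
      exact mul_le_mul_of_nonneg_left h5 (al_nonneg _ _)

/-! ### the dual arm on the left -/

/-- labels `l` with `l + (1,1)` in the box -/
noncomputable def sb (a b c d : ℤ) : Finset (ℤ × ℤ) :=
  (Bx a b c d).map ⟨fun l => (l.1 - 1, l.2 - 1), by
    intro x y h
    have h1 := congrArg Prod.fst h
    have h2 := congrArg Prod.snd h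
    simp only at h1 h2
    exact Prod.ext (by omega) (by omega)⟩

lemma mem_sb {a b c d : ℤ} {l : ℤ × ℤ} : l ∈ sb a b c d ↔
    (2 * a ≤ l.1 + 1 ∧ l.1 + 1 ≤ 2 * b) ∧ (2 * c ≤ l.2 + 1 ∧ l.2 + 1 ≤ 2 * d) ∧
      (l.1 + l.2) % 2 = 1 := by
  unfold sb
  rw [mem_map]
  simp only [mem_Bx, Function.Embedding.coeFn_mk]
  constructor
  · rintro ⟨e, he, rfl⟩
    simp only
    omega
  · intro h
    exact ⟨(l.1 + 1, l.2 + 1), by simp only; omega, by refine Prod.ext ?_ ?_ <;> simp⟩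

lemma sb_map {a b c d : ℤ} : (sb a b c d).map sh1 = Bx a b c d := by
  ext l
  rw [mem_map]
  constructor
  · rintro ⟨e, he, rfl⟩
    rw [mem_sb] at he
    rw [mem_Bx]
    simp only [sh1, Function.Embedding.coeFn_mk]
    omega
  · intro h
    rw [mem_Bx] at h
    refine ⟨(l.1 - 1, l.2 - 1), ?_, ?_⟩
    · rw [mem_sb]; simp only; omega
    · refine Prod.ext ?_ ?_ <;> simp [sh1]

/-- ambient labels of the dual arm: left quadrant -/
noncomputable def DL (q : ℤ × ℤ) (t : ℤ) : Finset (ℤ × ℤ) := sb (q.1 - t) q.1 q.2 (q.2 + 1 + t)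

/-- led dual arm in the left quadrant: mirror image of the led open arm -/
def DE (q : ℤ × ℤ) (ρ t : ℤ) (ω : Finset (ℤ × ℤ)) : Prop :=
  OE q ρ t ((du (DL q t) ω).map (syX (2 * q.1)).G)

lemma Pr_DE {q : ℤ × ℤ} {ρ t : ℤ} : Pr (DL q t) (DE q ρ t) = Pr (AB q t) (OE q ρ t) := by
  unfold DE
  rw [Pr_du (DL q t) (fun η => OE q ρ t (η.map (syX (2 * q.1)).G))]
  unfold DL
  rw [sb_map]
  refine ((syX (2 * q.1)).Pr (E1 := Bx (q.1 - t) q.1 q.2 (q.2 + 1 + t)) (E2 := AB q t) ?_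
    (OE q ρ t)).symm
  intro e
  unfold AB syX
  rw [mem_Bx, mem_Bx]
  simp only
  omega

/-- explicit form of the dual arm -/
lemma DE.spec {q : ℤ × ℤ} {ρ t : ℤ} {ω : Finset (ℤ × ℤ)} (h : DE q ρ t ω) :
    ∃ s, (0 ≤ s ∧ s ≤ 3 * ρ) ∧ ((2 * (q.1 - s) - 1, 2 * q.2) : ℤ × ℤ) ∉ ω ∧
      ∃ g : ℤ × ℤ, (g.1 = q.1 - t ∨ g.2 = q.2 + 1 + t) ∧
        Co (du (sb (q.1 - t) q.1 (q.2 + 1) (q.2 + 1 + t)) ω) (q.1 - s, q.2 + 1) g := by
  obtain ⟨s, hs, h1, v, hv, h2⟩ := h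
  rw [mem_Icc] at hs
  refine ⟨s, hs, ?_, ((syX (2 * q.1)).g v), ?_, ?_⟩
  · rw [(syX (2 * q.1)).mem_map] at h1
    have h3 := (mem_du_iff.1 h1).2
    have e : (((((syX (2 * q.1)).G' (2 * (q.1 + s), 2 * q.2 + 1)).1 - 1,
        ((syX (2 * q.1)).G' (2 * (q.1 + s), 2 * q.2 + 1)).2 - 1)) : ℤ × ℤ) =
        (2 * (q.1 - s) - 1, 2 * q.2) := by
      unfold syX
      refine Prod.ext ?_ ?_ <;> simp only <;> ring
    rwa [e] at h3
  · unfold syX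
    simp only
    omega
  · rw [(syX (2 * q.1)).map_inter (du (DL q t) ω)
      (E1 := Bx (q.1 - t) q.1 (q.2 + 1) (q.2 + 1 + t)) (E2 := QB (q.1, q.2 + 1) t)
      (fun e => by
        unfold QB syX
        rw [mem_Bx, mem_Bx]
        simp only
        omega)] at h2
    have h3 : Co (du (DL q t) ω ∩ Bx (q.1 - t) q.1 (q.2 + 1) (q.2 + 1 + t)) (q.1 - s, q.2 + 1)
        ((syX (2 * q.1)).g v) := by
      rw [← (syX (2 * q.1)).co_iff]
      have e1 : (syX (2 * q.1)).g ((syX (2 * q.1)).g v) = v := by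
        unfold syX
        refine Prod.ext ?_ ?_ <;> simp
      have e2 : (syX (2 * q.1)).g (q.1 - s, q.2 + 1) = (q.1 + s, q.2 + 1) := by
        unfold syX
        refine Prod.ext ?_ ?_ <;> simp only; ring
      rw [e1, e2]
      exact h2
    refine h3.mono ?_
    intro l hl
    obtain ⟨h4, h5⟩ := mem_inter.1 hl
    rw [mem_du_iff] at h4 ⊢
    refine ⟨?_, h4.2⟩
    rw [mem_Bx] at h5
    rw [mem_sb]
    simp only
    omega

lemma OE_inter {q : ℤ × ℤ} {ρ t : ℤ} (hρt : 3 * ρ ≤ t) {ω : Finset (ℤ × ℤ)} :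
    OE q ρ t (ω ∩ AB q t) ↔ OE q ρ t ω := by
  unfold OE OB
  have h1 : QB (q.1, q.2 + 1) t ⊆ AB q t := by
    unfold QB AB
    exact Bx_sub (by simp only; omega) (by simp only; omega) (by simp only; omega)
      (by simp only; omega)
  have h2 : ω ∩ AB q t ∩ QB (q.1, q.2 + 1) t = ω ∩ QB (q.1, q.2 + 1) t := by
    rw [inter_assoc, inter_eq_right.2 h1]
  rw [h2]
  have h3 : ∀ s ∈ Icc 0 (3 * ρ), ((2 * (q.1 + s), 2 * q.2 + 1) : ℤ × ℤ) ∈ AB q t := by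
    intro s hs
    rw [mem_Icc] at hs
    unfold AB
    rw [mem_Bx]
    simp only
    omega
  constructor
  · rintro ⟨s, hs, h4, h5⟩
    exact ⟨s, hs, (mem_inter.1 h4).1, h5⟩
  · rintro ⟨s, hs, h4, h5⟩
    exact ⟨s, hs, mem_inter.2 ⟨h4, h3 s hs⟩, h5⟩

lemma DE_inter {q : ℤ × ℤ} {ρ t : ℤ} {ω : Finset (ℤ × ℤ)} :
    DE q ρ t (ω ∩ DL q t) ↔ DE q ρ t ω := by
  unfold DE
  rw [du_inter subset_rfl]

lemma AB_DL {q : ℤ × ℤ} {t : ℤ} : Disjoint (AB q t) (DL q t) := by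
  rw [disjoint_left]
  intro l h1 h2
  unfold AB at h1
  unfold DL at h2
  rw [mem_Bx] at h1
  rw [mem_sb] at h2
  omega

/-- both arms -/
lemma Pr_both {q : ℤ × ℤ} {ρ t : ℤ} (hρt : 3 * ρ ≤ t) {E : Finset (ℤ × ℤ)}
    (h1 : AB q t ⊆ E) (h2 : DL q t ⊆ E) :
    Pr E (fun ω => OE q ρ t ω ∧ DE q ρ t ω) = Pr (AB q t) (OE q ρ t) * Pr (AB q t) (OE q ρ t) := by
  rw [← Pr_DE (q := q) (ρ := ρ) (t := t)]
  nth_rw 1 [Pr_DE]
  rw [← Pr_indep h1 h2 AB_DL (OE q ρ t) (DE q ρ t)]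
  exact Pr_congr fun ω _ => by rw [OE_inter hρt, DE_inter]

end Pool.Agent.H66.W
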