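import Mathlib
import Pool.Agent.H66.W.QuadP

set_option autoImplicit false
open Finset

/-! One arm in a quadrant, part 3: counting. `al ρ t ≤ C (ρ/t)^(1/2)`. -/

namespace Pool.Agent.H66.W

open Pool.Agent.H75.Perc Pool.Agent.H75.TwoArm Pool.Agent.H75.Four Pool.Agent.H49.Perc
open Pool.Agent.H99.NC Pool.Agent.H60.Q1

/-- the event at the position `z.1`, with the first vertex `z.2` -/
def AZ (ρ t : ℤ) (z : ℤ × ℤ) (ω : Finset (ℤ × ℤ)) : Prop :=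
  OB (8 * ρ * z.1, 0) t z.2 ω ∧ (∀ s ∈ Icc 0 (3 * ρ), s < z.2 → ¬ OB (8 * ρ * z.1, 0) t s ω) ∧
    DE (8 * ρ * z.1, 0) ρ t ω

lemma both_le_sum {ρ t : ℤ} {E : Finset (ℤ × ℤ)} (j : ℤ) :
    Pr E (fun ω => OE (8 * ρ * j, 0) ρ t ω ∧ DE (8 * ρ * j, 0) ρ t ω) ≤
      ∑ s ∈ Icc 0 (3 * ρ), Pr E (AZ ρ t (j, s)) := by
  classical
  have h1 : Pr E (fun ω => OE (8 * ρ * j, 0) ρ t ω ∧ DE (8 * ρ * j, 0) ρ t ω) ≤
      Pr E (fun ω => ∃ s ∈ Icc 0 (3 * ρ), AZ ρ t (j, s) ω) := by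
    refine Pr_mono fun ω _ h => ?_
    obtain ⟨⟨s0, hs0, h0⟩, hD⟩ := h
    obtain ⟨s, hs, hmin⟩ := exists_min_image ((Icc 0 (3 * ρ)).filter
      (fun s => OB (8 * ρ * j, 0) t s ω)) id ⟨s0, mem_filter.2 ⟨hs0, h0⟩⟩
    rw [mem_filter] at hs
    refine ⟨s, hs.1, hs.2, fun s' hs' hlt h' => ?_, hD⟩
    have := hmin s' (mem_filter.2 ⟨hs', h'⟩)
    simp only [id] at this hlt
    omega
  refine h1.trans ?_
  have h2 := PrP_exists_le (q := fun _ : ℤ × ℤ => (1 / 2 : ℝ)) (fun _ => by norm_num) E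
    (Icc 0 (3 * ρ)) (fun s => AZ ρ t (j, s))
  simp only [PrP_half] at h2
  exact h2

/-- the open arm in the window -/
lemma AZ.far {ρ t M : ℤ} (hρ : 1 ≤ ρ) (hM1 : 3 * ρ ≤ M) (hM : 5 * M ≤ t) {z : ℤ × ℤ}
    (hz1 : |8 * ρ * z.1 + z.2| ≤ M) (hz1' : |8 * ρ * z.1| ≤ M) {ω : Finset (ℤ × ℤ)}
    (h : AZ ρ t z ω) :
    ∃ v : ℤ × ℤ, (4 * M ≤ |v.1 - ((0, 0) : ℤ × ℤ).1| ∨ 4 * M ≤ |v.2 - ((0, 0) : ℤ × ℤ).2|) ∧
      Co (ω ∩ Bx (-(4 * M)) (4 * M) 0 (4 * M)) (8 * ρ * z.1 + z.2, 0) v := by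
  obtain ⟨h1, v, hv, h2⟩ := h.1
  rw [abs_le] at hz1 hz1'
  simp only [mul_zero, zero_add] at h1 h2 hv
  have h3 : Co (ω ∩ {(2 * (8 * ρ * z.1 + z.2), 1)} ∪ ω ∩ QB (8 * ρ * z.1, 1) t)
      (8 * ρ * z.1 + z.2, 0) v := by
    refine Relation.ReflTransGen.head ⟨?_, ?_⟩ (h2.mono subset_union_right)
    · unfold IsUnit4
      simp
    · refine mem_union_left _ (mem_inter.2 ⟨?_, ?_⟩)
      · have e : ((8 * ρ * z.1 + z.2, 0) : ℤ × ℤ) + (8 * ρ * z.1 + z.2, 1) =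
            (2 * (8 * ρ * z.1 + z.2), 1) := by
          refine Prod.ext ?_ ?_ <;> simp only [Prod.fst_add, Prod.snd_add] <;> ring
        rw [e]
        exact h1
      · rw [mem_singleton]
        refine Prod.ext ?_ ?_ <;> simp only [Prod.fst_add, Prod.snd_add] <;> ring
  obtain ⟨v', hv', h4⟩ := open_exit (o := (0, 0)) (M := 4 * M) h3
    (by
      simp only [sub_zero]
      rw [abs_lt, abs_zero]
      omega)
    (by
      simp only [sub_zero]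
      rw [le_abs, le_abs]
      rcases hv with hv | hv <;> omega)
  refine ⟨v', hv', h4.mono ?_⟩
  intro l hl
  obtain ⟨h5, h6⟩ := mem_inter.1 hl
  rw [mem_Bx] at h6
  simp only at h6
  rcases mem_union.1 h5 with h7 | h7
  · obtain ⟨h8, h9⟩ := mem_inter.1 h7
    rw [mem_singleton] at h9
    refine mem_inter.2 ⟨h8, ?_⟩
    rw [mem_Bx]
    have : l.2 = 1 := by rw [h9]
    omega
  · obtain ⟨h8, h9⟩ := mem_inter.1 h7
    unfold QB at h9
    rw [mem_Bx] at h9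
    simp only at h9
    refine mem_inter.2 ⟨h8, ?_⟩
    rw [mem_Bx]
    omega

/-- separation of two positions by the dual arm of the right one -/
lemma AZ.sep {ρ t M : ℤ} (hρ : 1 ≤ ρ) (hM1 : 3 * ρ ≤ M) (hM : 5 * M ≤ t) {z z' : ℤ × ℤ}
    (hz1 : |8 * ρ * z.1 + z.2| ≤ M) (hz' : |8 * ρ * z'.1 + z'.2| ≤ M)
    (hz'1 : |8 * ρ * z'.1| ≤ M) (hz2 : z.2 ≤ 3 * ρ) (hz2' : 0 ≤ z'.2)
    (hlt : z.1 < z'.1) {ω : Finset (ℤ × ℤ)} (h' : AZ ρ t z' ω) :
    ¬ Co (ω ∩ Bx (-(4 * M)) (4 * M) 0 (4 * M)) (8 * ρ * z.1 + z.2, 0)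
      (8 * ρ * z'.1 + z'.2, 0) := by
  obtain ⟨s, hs, h1, g, hg, h2⟩ := h'.2.2.spec
  rw [abs_le] at hz1 hz' hz'1
  simp only [mul_zero, zero_add] at h1 h2 hg
  have h8 : 8 * ρ * z.1 + 8 * ρ ≤ 8 * ρ * z'.1 := by
    have : 8 * ρ * (z.1 + 1) ≤ 8 * ρ * z'.1 := mul_le_mul_of_nonneg_left (by omega) (by omega)
    linarith
  have hodd : ∀ e ∈ sb (8 * ρ * z'.1 - t) (8 * ρ * z'.1) 1 (1 + t), (e.1 + e.2) % 2 = 1 :=
    fun e he => (mem_sb.1 he).2.2
  obtain ⟨g', hg', h3⟩ := dual_exit (a := -(4 * M)) (b := 4 * M) (c := 0) (d := 4 * M) hodd h2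
    (by unfold Out; simp only; omega) (by unfold Out; rcases hg with hg | hg <;> omega)
  refine sep_row (s := 8 * ρ * z'.1 - s) (by omega) (by omega) (by omega) (by omega) (by omega)
    (by simpa using h1) hg' ?_
  have e : (0 : ℤ) + 1 = 1 := by norm_num
  rw [e]
  refine h3.mono (du_mono ?_)
  intro l hl
  obtain ⟨h5, h6⟩ := mem_inter.1 hl
  rw [mem_sb] at h5
  rw [mem_BP]
  refine ⟨h6, ?_⟩
  omega

/-- **the square of the arm probability** -/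
theorem al_sq : ∃ C : ℝ, 0 < C ∧ ∀ ρ t : ℤ, 1 ≤ ρ → ρ ≤ t → al ρ t ^ 2 ≤ C * (ρ / t) := by
  obtain ⟨C, hC, hcount⟩ := count_le
  obtain ⟨c, hc, hlow⟩ := OE_lower
  refine ⟨59 * C / c ^ 2 + 20, by positivity, fun ρ t hρ hρt => ?_⟩
  have ht1 : 1 ≤ t := by omega
  have hρR : (1 : ℝ) ≤ ρ := by exact_mod_cast hρ
  have htR : (1 : ℝ) ≤ t := by exact_mod_cast ht1
  have h01 : al ρ t ^ 2 ≤ 1 := by
    have := al_nonneg ρ t
    have := al_le_one ρ t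
    nlinarith
  have hq : 0 ≤ 59 * C / c ^ 2 * ((ρ : ℝ) / t) := by positivity
  rw [add_mul]
  set M := t / 5 with hM
  by_cases hcase : M < 3 * ρ
  · have h1 : t ≤ 20 * ρ := by omega
    have h2 : (t : ℝ) ≤ 20 * ρ := by exact_mod_cast h1
    have h3 : (1 : ℝ) ≤ 20 * (ρ / t) := by
      rw [mul_div_assoc', le_div_iff₀ (by linarith)]
      linarith
    linarith
  push Not at hcase
  have h5M : 5 * M ≤ t := by omega
  set J := (M - 3 * ρ) / (8 * ρ) with hJ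
  have hJ0 : 0 ≤ J := Int.ediv_nonneg (by omega) (by omega)
  have hJ1 : 8 * ρ * J ≤ M - 3 * ρ := Int.mul_ediv_self_le (by omega)
  have hJ2 : M - 3 * ρ < 8 * ρ * J + 8 * ρ := Int.lt_mul_ediv_self_add (by omega)
  have hb : ∀ j : ℤ, -J ≤ j → j ≤ J → -(M - 3 * ρ) ≤ 8 * ρ * j ∧ 8 * ρ * j ≤ M - 3 * ρ := by
    intro j h1 h2
    have h3 : 8 * ρ * j ≤ 8 * ρ * J := mul_le_mul_of_nonneg_left h2 (by omega)
    have h4 : 8 * ρ * (-J) ≤ 8 * ρ * j := mul_le_mul_of_nonneg_left h1 (by omega)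
    rw [mul_neg] at h4
    omega
  set E := Bx (-(t + M + 1)) (t + M + 1) (-1) (t + 2) with hE
  have hmem : ∀ z ∈ Icc (-J) J ×ˢ Icc 0 (3 * ρ), (-J ≤ z.1 ∧ z.1 ≤ J) ∧ 0 ≤ z.2 ∧ z.2 ≤ 3 * ρ := by
    intro z hz
    rw [mem_product, mem_Icc, mem_Icc] at hz
    exact hz
  have h := hcount (ℤ × ℤ) E (Bx (-(4 * M)) (4 * M) 0 (4 * M)) (fun e he => (mem_Bx.1 he).2.2)
    (0, 0) M (by omega) (Icc (-J) J ×ˢ Icc 0 (3 * ρ)) (fun z => (8 * ρ * z.1 + z.2, 0))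
    (fun z ω => AZ ρ t z ω)
    (by
      intro z hz
      obtain ⟨h1, h2⟩ := hmem z hz
      have h3 := hb z.1 h1.1 h1.2
      simp only [sub_zero]
      rw [abs_le, abs_zero]
      omega)
    (by
      intro ω _ z hz h
      obtain ⟨h1, h2⟩ := hmem z hz
      have h3 := hb z.1 h1.1 h1.2
      exact h.far hρ hcase h5M (by rw [abs_le]; omega) (by rw [abs_le]; omega))
    (by
      intro ω _ z hz z' hz' hne h h'
      obtain ⟨h1, h2⟩ := hmem z hz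
      have h3 := hb z.1 h1.1 h1.2
      obtain ⟨h1', h2'⟩ := hmem z' hz'
      have h3' := hb z'.1 h1'.1 h1'.2
      rcases lt_trichotomy z.1 z'.1 with hlt | heq | hlt
      · exact h'.sep hρ hcase h5M (by rw [abs_le]; omega) (by rw [abs_le]; omega)
          (by rw [abs_le]; omega) h2.2 h2'.1 hlt
      · exfalso
        have hne2 : z.2 ≠ z'.2 := fun h4 => hne (Prod.ext heq h4)
        rcases lt_or_gt_of_ne hne2 with h4 | h4
        · refine h'.2.1 z.2 (mem_Icc.2 h2) h4 ?_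
          rw [← heq]
          exact h.1
        · refine h.2.1 z'.2 (mem_Icc.2 h2') h4 ?_
          rw [heq]
          exact h'.1
      · intro hco
        exact h.sep hρ hcase h5M (by rw [abs_le]; omega) (by rw [abs_le]; omega)
          (by rw [abs_le]; omega) h2'.2 h2.1 hlt hco.symm)
  rw [sum_product] at h
  have hlow' : ∀ j ∈ Icc (-J) J, (c * al ρ t) * (c * al ρ t) ≤
      ∑ s ∈ Icc 0 (3 * ρ), Pr E (AZ ρ t (j, s)) := by
    intro j hj
    rw [mem_Icc] at hj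
    have h3 := hb j hj.1 hj.2
    refine le_trans ?_ (both_le_sum j)
    have hA : AB (8 * ρ * j, 0) t ⊆ E := by
      unfold AB
      exact Bx_sub (by simp only; omega) (by simp only; omega) (by simp only; omega)
        (by simp only; omega)
    have hD : DL (8 * ρ * j, 0) t ⊆ E := by
      intro l hl
      unfold DL at hl
      rw [mem_sb] at hl
      simp only at hl
      rw [hE, mem_Bx]
      omega
    rw [Pr_both (by omega) hA hD]
    have h4 := hlow (8 * ρ * j, 0) ρ t hρ (by omega)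
    exact mul_le_mul h4 h4 (mul_nonneg hc.le (al_nonneg _ _)) (Pr_nonneg _ _)
  have h6 := (sum_le_sum hlow').trans h
  rw [sum_const, Int.card_Icc, nsmul_eq_mul] at h6
  have h7 : (((J + 1 - -J).toNat : ℕ) : ℝ) = 2 * J + 1 := by
    have : (((J + 1 - -J).toNat : ℕ) : ℤ) = 2 * J + 1 := by omega
    exact_mod_cast this
  rw [h7] at h6
  have h8 : t ≤ 59 * ρ * (2 * J + 1) := by
    have e1 : 59 * ρ * (2 * J + 1) = 14 * (8 * ρ * J) + 6 * ρ * J + 59 * ρ := by ring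
    have e2 : 0 ≤ ρ * J := mul_nonneg (by omega) hJ0
    have e3 : 0 ≤ 8 * ρ * J := by
      have : 8 * ρ * J = 8 * (ρ * J) := by ring
      omega
    have e4 : 6 * ρ * J = 6 * (ρ * J) := by ring
    omega
  have h9 : (t : ℝ) ≤ 59 * ρ * (2 * J + 1) := by exact_mod_cast h8
  have h10 : al ρ t ^ 2 ≤ 59 * C / c ^ 2 * (ρ / t) := by
    have hc2 : 0 < c ^ 2 := by positivity
    rw [div_mul_div_comm, le_div_iff₀ (by positivity)]
    have h11 : al ρ t ^ 2 * (c ^ 2 * t) ≤ al ρ t ^ 2 * c ^ 2 * (59 * ρ * (2 * J + 1)) := by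
      rw [← mul_assoc]
      exact mul_le_mul_of_nonneg_left h9 (by positivity)
    have h12 : al ρ t ^ 2 * c ^ 2 * (59 * ρ * (2 * J + 1)) =
        59 * ρ * ((2 * J + 1) * (c * al ρ t * (c * al ρ t))) := by ring
    rw [h12] at h11
    refine h11.trans ?_
    calc 59 * ρ * ((2 * J + 1) * (c * al ρ t * (c * al ρ t))) ≤ 59 * ρ * C :=
          mul_le_mul_of_nonneg_left h6 (by positivity)
      _ = 59 * C * ρ := by ring
  have h13 : (0 : ℝ) ≤ 20 * (ρ / t) := by positivity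
  linarith

/-- **one arm in a quadrant** -/
theorem al_le : ∃ C : ℝ, 0 < C ∧ ∀ ρ t : ℤ, 1 ≤ ρ → ρ ≤ t →
    al ρ t ≤ C * ((ρ : ℝ) / t) ^ (1 / 2 : ℝ) := by
  obtain ⟨C, hC, h⟩ := al_sq
  refine ⟨C ^ (1 / 2 : ℝ), by positivity, fun ρ t hρ hρt => ?_⟩
  have hρR : (1 : ℝ) ≤ ρ := by exact_mod_cast hρ
  have htR : (1 : ℝ) ≤ t := by exact_mod_cast (by omega : 1 ≤ t)
  rw [← Real.mul_rpow hC.le (by positivity)]
  have h1 := Real.rpow_le_rpow (by positivity) (h ρ t hρ hρt) (by norm_num : (0 : ℝ) ≤ 1 / 2)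
  rwa [← Real.rpow_natCast, ← Real.rpow_mul (al_nonneg _ _),
    show ((2 : ℕ) : ℝ) * (1 / 2) = 1 by norm_num, Real.rpow_one] at h1

/-! ### all orientations -/

open Pool.Agent.H65.Dom (Arm)

lemma arm_reflX {p : ℤ × ℤ} {ρ t : ℤ} {ω : Finset (ℤ × ℤ)} (h : Arm p ρ t ω) :
    Arm p ρ t (ω.map (syX (2 * p.1)).G) := by
  obtain ⟨u, v, h1, h2, h3, h4⟩ := h
  refine ⟨(syX (2 * p.1)).g u, (syX (2 * p.1)).g v, ?_, ?_, ?_, ((syX (2 * p.1)).co_iff _ _ _).2 h4⟩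
  · unfold syX
    simp only
    rw [show 2 * p.1 - u.1 - p.1 = -(u.1 - p.1) by ring, abs_neg]
    exact h1
  · exact h2
  · unfold syX
    simp only
    rw [show 2 * p.1 - v.1 - p.1 = -(v.1 - p.1) by ring, abs_neg]
    exact h3

lemma arm_reflY {p : ℤ × ℤ} {ρ t : ℤ} {ω : Finset (ℤ × ℤ)} (h : Arm p ρ t ω) :
    Arm p ρ t (ω.map (syY (2 * p.2)).G) := by
  obtain ⟨u, v, h1, h2, h3, h4⟩ := h
  refine ⟨(syY (2 * p.2)).g u, (syY (2 * p.2)).g v, ?_, ?_, ?_, ((syY (2 * p.2)).co_iff _ _ _).2 h4⟩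
  · exact h1
  · unfold syY
    simp only
    rw [show 2 * p.2 - u.2 - p.2 = -(u.2 - p.2) by ring, abs_neg]
    exact h2
  · unfold syY
    simp only
    rw [show 2 * p.2 - v.2 - p.2 = -(v.2 - p.2) by ring, abs_neg]
    exact h3

/-- `E` is contained in a quadrant near `p` -/
def InQuad (σ τ : ℤ) (p : ℤ × ℤ) (t : ℤ) (E : Finset (ℤ × ℤ)) : Prop :=
  ∀ l ∈ E, |l.1 - 2 * p.1| ≤ 2 * t → |l.2 - 2 * p.2| ≤ 2 * t →
    0 ≤ σ * (l.1 - 2 * p.1) ∧ 0 ≤ τ * (l.2 - 2 * p.2)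

lemma quad_pp : ∃ C : ℝ, 0 < C ∧ ∀ (E : Finset (ℤ × ℤ)) (p : ℤ × ℤ) (ρ t : ℤ),
    (∀ e ∈ E, (e.1 + e.2) % 2 = 1) → 1 ≤ ρ → ρ < t → InQuad 1 1 p t E →
    Pr E (Arm p ρ t) ≤ C * ((ρ : ℝ) / t) ^ (1 / 2 : ℝ) := by
  obtain ⟨C, hC, h⟩ := al_le
  refine ⟨C, hC, fun E p ρ t hodd hρ hρt hQ => ?_⟩
  refine le_trans ?_ (h ρ t hρ (by omega))
  have h1 : Pr E (Arm p ρ t) ≤ Pr E (QA p ρ t) := by
    refine Pr_mono fun ω hω h2 => ?_
    obtain ⟨u, v, h3, h4, h5, h6⟩ := h2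
    rw [abs_le] at h3 h4
    obtain ⟨v', hv', h7⟩ := open_exit (o := p) (M := t) h6 (by rw [abs_lt, abs_lt]; omega) h5
    have hsub : ω ∩ Bx (p.1 - t) (p.1 + t) (p.2 - t) (p.2 + t) ⊆ ω ∩ QB p t := by
      intro l hl
      obtain ⟨h8, h9⟩ := mem_inter.1 hl
      refine mem_inter.2 ⟨h8, ?_⟩
      rw [mem_Bx] at h9
      have h10 := hQ l (hω h8) (by rw [abs_le]; omega) (by rw [abs_le]; omega)
      unfold QB
      rw [mem_Bx]
      omega
    have h8 := h7.mono hsub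
    have hne : u ≠ v' := by
      rintro rfl
      rw [le_abs, le_abs] at hv'
      omega
    have hin : inB p.1 (p.1 + t) p.2 (p.2 + t) u := by
      rcases Relation.ReflTransGen.cases_head h8 with h9 | ⟨w, h9, -⟩
      · exact absurd h9 hne
      · exact (h9.inB inter_subset_right).1
    have hin' := h8.inB inter_subset_right hin
    refine ⟨u, v', ?_, ?_, h8⟩
    · unfold inB at hin ⊢
      omega
    · unfold inB at hin'
      rw [le_abs, le_abs] at hv'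
      omega
  refine h1.trans ((Pr_inc (E := E ∪ QB p t) subset_union_left (QA_inc p ρ t)).trans ?_)
  rw [Pr_QA subset_union_right]

/-- **one arm in a quadrant, all orientations and domains** -/
theorem quad_arm : ∃ C : ℝ, 0 < C ∧ ∀ (E : Finset (ℤ × ℤ)) (σ τ : ℤ) (p : ℤ × ℤ) (ρ t : ℤ),
    (σ = 1 ∨ σ = -1) → (τ = 1 ∨ τ = -1) →
    (∀ e ∈ E, (e.1 + e.2) % 2 = 1) → 1 ≤ ρ → ρ < t → InQuad σ τ p t E →
    Pr E (Arm p ρ t) ≤ C * ((ρ : ℝ) / t) ^ (1 / 2 : ℝ) := by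
  obtain ⟨C, hC, h⟩ := quad_pp
  refine ⟨C, hC, ?_⟩
  -- reflection in the second coordinate
  have hY : ∀ (E : Finset (ℤ × ℤ)) (τ : ℤ) (p : ℤ × ℤ) (ρ t : ℤ), (τ = 1 ∨ τ = -1) →
      (∀ e ∈ E, (e.1 + e.2) % 2 = 1) → 1 ≤ ρ → ρ < t → InQuad 1 τ p t E →
      Pr E (Arm p ρ t) ≤ C * ((ρ : ℝ) / t) ^ (1 / 2 : ℝ) := by
    intro E τ p ρ t hτ hodd hρ hρt hQ
    rcases hτ with rfl | rfl
    · exact h E p ρ t hodd hρ hρt hQ
    · refine le_trans ?_ (h (E.map (syY (2 * p.2)).G) p ρ t ?_ hρ hρt ?_)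
      · rw [(syY (2 * p.2)).Pr (E1 := E) (fun e => (syY (2 * p.2)).mem_map E e)]
        exact Pr_mono fun ω _ => arm_reflY
      · intro e he
        rw [(syY (2 * p.2)).mem_map] at he
        have h1 := hodd _ he
        unfold syY at h1
        simp only at h1
        omega
      · intro l hl h1 h2
        rw [(syY (2 * p.2)).mem_map] at hl
        have h3 := hQ _ hl (by unfold syY; exact h1) (by
          unfold syY
          simp only
          rw [show 2 * (2 * p.2) - l.2 - 2 * p.2 = -(l.2 - 2 * p.2) by ring, abs_neg]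
          exact h2)
        unfold syY at h3
        simp only at h3
        omega
  intro E σ τ p ρ t hσ hτ hodd hρ hρt hQ
  rcases hσ with rfl | rfl
  · exact hY E τ p ρ t hτ hodd hρ hρt hQ
  · refine le_trans ?_ (hY (E.map (syX (2 * p.1)).G) τ p ρ t hτ ?_ hρ hρt ?_)
    · rw [(syX (2 * p.1)).Pr (E1 := E) (fun e => (syX (2 * p.1)).mem_map E e)]
      exact Pr_mono fun ω _ => arm_reflX
    · intro e he
      rw [(syX (2 * p.1)).mem_map] at he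
      have h1 := hodd _ he
      unfold syX at h1
      simp only at h1
      omega
    · intro l hl h1 h2
      rw [(syX (2 * p.1)).mem_map] at hl
      have h3 := hQ _ hl (by
        unfold syX
        simp only
        rw [show 2 * (2 * p.1) - l.1 - 2 * p.1 = -(l.1 - 2 * p.1) by ring, abs_neg]
        exact h1) (by unfold syX; exact h2)
      unfold syX at h3
      simp only at h3
      exact ⟨by omega, h3.2⟩

end Pool.Agent.H66.W
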