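import Mathlib
import Pool.Agent.H66.W.QuadC
import Pool.Agent.Q1.M4.RegC

set_option autoImplicit false
open Finset

/-! Visits of the path near a convex corner which is not a mark: probability at most
`C (ρ/t)^(1/2)`. -/

namespace Pool.Agent.H66.W

open Pool.Agent.H75.Perc Pool.Agent.H75.TwoArm Pool.Agent.H49.Q1 Pool.Agent.H52.Q1
  Pool.Agent.H99.NC Pool.Agent.Q1.M5 Pool.Agent.H69.Q1 Pool.Agent.Q1.M4
open Pool.Agent.Q1 (Env)
open Pool.Agent.H65.Dom (Arm)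
open Pool.Agent.H65.Dom (mem_du_iff')

/-- `d` is one of the four cells around the grid vertex `p` -/
def Around (p : ℤ × ℤ) (d : Cell) : Prop :=
  (d.1 = p.1 ∨ d.1 = p.1 - 1) ∧ (d.2 = p.2 ∨ d.2 = p.2 - 1)

/-- exactly one cell around the vertex `p` -/
def OneCell (Q : Finset Cell) (p : ℤ × ℤ) (c : Cell) : Prop :=
  c ∈ Q ∧ Around p c ∧ ∀ d ∈ Q, Around p d → d = c

variable {P : PType} {X Y : ℤ → ℤ}

/-- faces near the corner are in a quadrant -/
lemma OneCell.face (hX : StrictMono X) (hY : StrictMono Y) {Q : Finset Cell} {p : ℤ × ℤ} {c : Cell}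
    (h : OneCell Q p c) {t : ℤ} (hs : Small X Y p t) {f : ℤ × ℤ} (hf : f ∈ FQ Q X Y)
    (h1 : |f.1 - X p.1| ≤ t) (h2 : |f.2 - Y p.2| ≤ t) :
    (0 ≤ (2 * (c.1 - p.1) + 1) * (f.1 - (X p.1 + (c.1 - p.1) + 1))) ∧
      0 ≤ (2 * (c.2 - p.2) + 1) * (f.2 - (Y p.2 + (c.2 - p.2) + 1)) := by
  obtain ⟨d, hd, ⟨a1, a2⟩, a3, a4⟩ := mem_FQ.1 hf
  rw [abs_le] at h1 h2
  have h3 := near_cell' hX hY hs (d := d) (by omega) (by omega) (by omega) (by omega)
  have h4 := h.2.2 d hd h3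
  rw [h4] at a1 a2 a3 a4
  obtain ⟨b1, b2⟩ := h.2.1
  constructor
  · rcases b1 with b | b
    · rw [b] at a1 ⊢
      simp only [sub_self, mul_zero, zero_add, add_zero, one_mul]
      omega
    · rw [b] at a2 ⊢
      rw [sub_add_cancel] at a2
      have e : p.1 - 1 - p.1 = -1 := by ring
      rw [e]
      omega
  · rcases b2 with b | b
    · rw [b] at a3 ⊢
      simp only [sub_self, mul_zero, zero_add, add_zero, one_mul]
      omega
    · rw [b] at a4 ⊢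
      rw [sub_add_cancel] at a4
      have e : p.2 - 1 - p.2 = -1 := by ring
      rw [e]
      omega

/-- labels near the corner are in a quadrant -/
lemma OneCell.label (hX : StrictMono X) (hY : StrictMono Y) {Q : Finset Cell} {p : ℤ × ℤ} {c : Cell}
    (h : OneCell Q p c) {t : ℤ} (hs : Small X Y p t) {E : Finset (ℤ × ℤ)} (hE : E ⊆ gs X Y Q) :
    InQuad (2 * (c.1 - p.1) + 1) (2 * (c.2 - p.2) + 1) (lpt X Y p) t E := by
  intro l hl h1 h2
  have h0 := hE hl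
  rw [mem_gs] at h0
  obtain ⟨d, hd, h0⟩ := h0
  unfold gcell at h0
  rw [mem_Bx] at h0
  obtain ⟨⟨a1, a2⟩, ⟨a3, a4⟩, -⟩ := h0
  unfold lpt at h1 h2 ⊢
  simp only at h1 h2 ⊢
  rw [abs_le] at h1 h2
  have h3 := near_cell hX hY hs (d := d) (e := l) a1 a2 a3 a4 (by omega) (by omega) (by omega)
    (by omega)
  have h4 := h.2.2 d hd h3
  rw [h4] at a1 a2 a3 a4
  obtain ⟨b1, b2⟩ := h.2.1
  constructor
  · rcases b1 with b | b
    · rw [b] at a1 ⊢
      simp only [sub_self, mul_zero, zero_add, one_mul]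
      omega
    · rw [b] at a2 ⊢
      rw [sub_add_cancel] at a2
      have e : p.1 - 1 - p.1 = -1 := by ring
      rw [e]
      omega
  · rcases b2 with b | b
    · rw [b] at a3 ⊢
      simp only [sub_self, mul_zero, zero_add, one_mul]
      omega
    · rw [b] at a4 ⊢
      rw [sub_add_cancel] at a4
      have e : p.2 - 1 - p.2 = -1 := by ring
      rw [e]
      omega

open Classical in
/-- labels between two faces of `F` -/
noncomputable def bet (E F : Finset (ℤ × ℤ)) : Finset (ℤ × ℤ) :=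
  E.filter (fun l => ∃ f ∈ F, ∃ g ∈ F, IsUnit4 (g - f) ∧ l = f + g - (1, 1))

/-- the dual arm inside the domain -/
lemma dual_far' {B E ω W F : Finset (ℤ × ℤ)} {p : ℤ × ℤ} {t : ℤ}
    (h1 : ∀ f g : ℤ × ℤ, IsUnit4 (g - f) → f ∈ F → g ∈ F → f + g - (1, 1) ∈ E ∪ W)
    (h2 : ∀ f g : ℤ × ℤ, IsUnit4 (g - f) → f ∈ F → g ∉ F → f + g - (1, 1) ∈ W ∨ Far t f p)
    {f g : ℤ × ℤ} (h : Co (du B (ω ∪ W)) f g) (hf : f ∈ F) (hg : g ∉ F) :
    ∃ g', Far t g' p ∧ Co (du (bet E F) ω) f g' := by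
  classical
  induction h using Relation.ReflTransGen.head_induction_on with
  | refl => exact absurd hf hg
  | @head a b hab _ ih =>
    obtain ⟨h3, h4⟩ := hab
    obtain ⟨h5, h6⟩ := mem_du_iff'.1 h4
    rw [mem_union, not_or] at h6
    by_cases hb : b ∈ F
    · obtain ⟨g', h7, h8⟩ := ih hb
      refine ⟨g', h7, Relation.ReflTransGen.head ⟨h3, ?_⟩ h8⟩
      rw [mem_du_iff']
      refine ⟨?_, h6.1⟩
      unfold bet
      rw [mem_filter]
      refine ⟨?_, a, hf, b, hb, h3, rfl⟩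
      rcases mem_union.1 (h1 a b h3 hf hb) with h9 | h9
      · exact h9
      · exact absurd h9 h6.2
    · rcases h2 a b h3 hf hb with h9 | h9
      · exact absurd h9 h6.2
      · exact ⟨a, h9, Co.refl _ _⟩

/-- A loop visiting a face of the domain in the neighbourhood of `p` forces a dual arm inside the
domain. -/
lemma visit_dual' {E ω W F : Finset (ℤ × ℤ)} {p c0 c : ℤ × ℤ} {ρ t : ℤ}
    (h1 : ∀ f g : ℤ × ℤ, IsUnit4 (g - f) → f ∈ F → g ∈ F → f + g - (1, 1) ∈ E ∪ W)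
    (h2 : ∀ f g : ℤ × ℤ, IsUnit4 (g - f) → f ∈ F → g ∉ F → f + g - (1, 1) ∈ W ∨ Far t f p)
    (h0 : fi c0 ∉ F) (hc : InOrb (nx (ω ∪ W)) c0 c) (hcF : fi c ∈ F) (hcp : Cls ρ (fi c) p) :
    Arm p ρ t (du (bet E F) ω) := by
  classical
  obtain ⟨S, hS0, hS⟩ := exists_closed (ω ∪ W) c0
  have hmem : ∀ i, (nx (ω ∪ W))^[i] c0 ∈ S := by
    intro i
    induction i with
    | zero => exact hS0
    | succ i ih => rw [Function.iterate_succ_apply']; exact hS _ ih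
  obtain ⟨i, rfl⟩ := hc
  have h3 := dual_orb (w := ω ∪ W) (E := S.image H75.Perc.lab) (c := c0)
    (fun i => mem_image_of_mem _ (hmem i)) i
  obtain ⟨g', h4, h5⟩ := dual_far' (E := E) h1 h2 h3.symm hcF h0
  exact ⟨_, g', hcp.1, hcp.2, h4, h5⟩

/-- dual arms inside the domain near a corner with one cell -/
lemma dual_quad : ∃ C : ℝ, 0 < C ∧ ∀ (Q : Finset Cell) (X Y : ℤ → ℤ), StrictMono X → StrictMono Y →
    ∀ (p : ℤ × ℤ) (c : Cell), OneCell Q p c → ∀ (E : Finset (ℤ × ℤ)),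
    (∀ e ∈ E, (e.1 + e.2) % 2 = 1) → ∀ ρ t : ℤ, 1 ≤ ρ → ρ + 3 ≤ t → Small X Y p t →
    Pr E (fun ω => Arm (lpt X Y p) ρ t (du (bet E (FQ Q X Y)) ω)) ≤
      C * ((ρ + 1 : ℝ) / (t - 1)) ^ (1 / 2 : ℝ) := by
  classical
  obtain ⟨C, hC, h⟩ := quad_arm
  refine ⟨C, hC, fun Q X Y hX hY p c hc E hodd ρ t hρ hρt hs => ?_⟩
  set F := FQ Q X Y with hF
  set E' := bet E F with hE'
  have hsub : E' ⊆ E := filter_subset _ _
  have e1 : Pr E (fun ω => Arm (lpt X Y p) ρ t (du E' ω)) =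
      Pr (E'.map sh1) (Arm (lpt X Y p) ρ t) := by
    rw [← Pr_du, ← Pr_restrict hsub (fun ω => Arm (lpt X Y p) ρ t (du E' ω))]
    exact Pr_congr fun ω _ => by
      rw [H60.Q1.du_inter subset_rfl]
  rw [e1]
  set p' : ℤ × ℤ := (X p.1 + (c.1 - p.1) + 1, Y p.2 + (c.2 - p.2) + 1) with hp'
  obtain ⟨b1, b2⟩ := hc.2.1
  have hp1 : p'.1 = X p.1 ∨ p'.1 = X p.1 + 1 := by rw [hp']; simp only; omega
  have hp2 : p'.2 = Y p.2 ∨ p'.2 = Y p.2 + 1 := by rw [hp']; simp only; omega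
  have e2 : Pr (E'.map sh1) (Arm (lpt X Y p) ρ t) ≤
      Pr (E'.map sh1) (Arm p' (ρ + 1) (t - 1)) := by
    refine Pr_mono fun ω _ h1 => ?_
    obtain ⟨u, v, h2, h3, h4, h5⟩ := h1
    unfold lpt at h2 h3 h4
    simp only at h2 h3 h4
    rw [abs_le] at h2 h3
    rw [le_abs, le_abs] at h4
    refine ⟨u, v, ?_, ?_, ?_, h5⟩
    · rw [abs_le]; omega
    · rw [abs_le]; omega
    · rw [le_abs, le_abs]; omega
  refine e2.trans ?_
  have h3 := h (E'.map sh1) (2 * (c.1 - p.1) + 1) (2 * (c.2 - p.2) + 1) p' (ρ + 1) (t - 1)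
    (by omega) (by omega) (by
      intro e he
      obtain ⟨l, hl, rfl⟩ := mem_map.1 he
      have := hodd l (hsub hl)
      simp only [sh1, Function.Embedding.coeFn_mk]
      omega) (by omega) (by omega) (by
      intro l hl h4 h5
      obtain ⟨e, he, rfl⟩ := mem_map.1 hl
      rw [hE'] at he
      unfold bet at he
      rw [mem_filter] at he
      obtain ⟨-, f, hf, g, hg, hfg, rfl⟩ := he
      have h6 := unit_cases hfg
      simp only [sh1, Function.Embedding.coeFn_mk, Prod.fst_sub, Prod.snd_sub, Prod.fst_add,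
        Prod.snd_add] at h4 h5 ⊢
      rw [abs_le] at h4 h5
      obtain ⟨f1, f2⟩ := hc.face hX hY hs hf (by rw [abs_le]; omega) (by rw [abs_le]; omega)
      obtain ⟨g1, g2⟩ := hc.face hX hY hs hg (by rw [abs_le]; omega) (by rw [abs_le]; omega)
      constructor
      · have e3 : (2 * (c.1 - p.1) + 1) * (f.1 + g.1 - 1 + 1 - 2 * p'.1) =
            (2 * (c.1 - p.1) + 1) * (f.1 - (X p.1 + (c.1 - p.1) + 1)) +
            (2 * (c.1 - p.1) + 1) * (g.1 - (X p.1 + (c.1 - p.1) + 1)) := by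
          rw [hp']; ring
        rw [e3]
        exact add_nonneg f1 g1
      · have e3 : (2 * (c.2 - p.2) + 1) * (f.2 + g.2 - 1 + 1 - 2 * p'.2) =
            (2 * (c.2 - p.2) + 1) * (f.2 - (Y p.2 + (c.2 - p.2) + 1)) +
            (2 * (c.2 - p.2) + 1) * (g.2 - (Y p.2 + (c.2 - p.2) + 1)) := by
          rw [hp']; ring
        rw [e3]
        exact add_nonneg f2 g2)
  push_cast at h3
  exact h3

/-- **Visits near a convex corner which is not a mark.** -/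
theorem visit_convex : ∃ C : ℝ, 0 < C ∧ ∀ (P : PType) (X Y : ℤ → ℤ), StrictMono X →
    StrictMono Y → ∀ (E : Env) (c0 : ℤ × ℤ), PV P X Y E c0 → ∀ n < P.N, n ≠ 0 → n ≠ P.m →
    ∀ c : Cell, OneCell P.Q (P.vert n) c → ∀ ρ t : ℤ, 1 ≤ ρ → ρ + 3 ≤ t →
    Small X Y (P.vert n) t →
    PrP (fun _ => 1 / 2) E.E (VN P.Q X Y E ρ (lpt X Y (P.vert n))) ≤
      C * ((ρ : ℝ) / t) ^ (1 / 2 : ℝ) := by
  obtain ⟨C1, hC1, h1⟩ := quad_arm
  obtain ⟨C2, hC2, h2⟩ := dual_quad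
  refine ⟨C1 + 2 * C2, by positivity, ?_⟩
  intro P X Y hX hY E c0 hV n hn hn0 hnm c hc ρ t hρ hρt hs
  have hρR : (1 : ℝ) ≤ ρ := by exact_mod_cast hρ
  have htR : (ρ : ℝ) + 3 ≤ t := by exact_mod_cast hρt
  have hpos : 0 ≤ ((ρ : ℝ) / t) ^ (1 / 2 : ℝ) := by
    have : (0 : ℝ) ≤ t := by linarith
    positivity
  have hz : ∀ ω ⊆ E.E, ∀ i, InOrb (nx (ω ∪ Q1.M5.WL P X Y)) c0 (E.z ω i) :=
    fun ω hω i => ⟨i, (hV.z ω hω i).symm⟩
  rw [PrP_half]
  rcases lt_or_gt_of_ne hnm with hm | hm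
  · obtain ⟨f1, f2⟩ := free_far P hX hY hn0 hm hs
    have h3 : Pr E.E (VN P.Q X Y E ρ (lpt X Y (P.vert n))) ≤
        Pr E.E (Arm (lpt X Y (P.vert n)) ρ t) := by
      refine Pr_mono ?_
      rintro ω hω ⟨i, -, -, -, h5⟩
      exact visit_open f1 (f2 _ hV.tv) (hz ω hω i) h5
    refine h3.trans ((h1 E.E _ _ _ ρ t ?_ ?_ E.odd hρ (by omega)
      (hc.label hX hY hs (E := E.E) ?_)).trans ?_)
    · have := hc.2.1.1; omega
    · have := hc.2.1.2; omega
    · rw [hV.eqE]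
      unfold Q1.M5.EL
      exact sdiff_subset
    · exact mul_le_mul_of_nonneg_right (by linarith) hpos
  · have h3 : Pr E.E (VN P.Q X Y E ρ (lpt X Y (P.vert n))) ≤
        Pr E.E (fun ω => Arm (lpt X Y (P.vert n)) ρ t (du (bet E.E (FQ P.Q X Y)) ω)) := by
      refine Pr_mono ?_
      rintro ω hω ⟨i, -, h4, h5, -⟩
      refine visit_dual' (W := Q1.M5.WL P X Y) ?_ ?_ hV.out (hz ω hω i) h4 h5
      · intro f g hfg hf hg
        rw [hV.eqE, EL_union]
        obtain ⟨c, hc, ⟨h1, h2⟩, h3, h4⟩ := mem_FQ.1 hf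
        rw [mem_gs]
        refine ⟨c, hc, ?_⟩
        unfold gcell
        rw [mem_Bx]
        obtain ⟨f1, f2⟩ := f
        obtain ⟨g1, g2⟩ := g
        unfold IsUnit4 at hfg
        simp only [Prod.mk_sub_mk, Prod.mk.injEq] at hfg
        simp only [Prod.mk_add_mk, Prod.mk_sub_mk] at h1 h2 h3 h4 ⊢
        omega
      · intro f g hfg hf hg
        exact wired_near P hX hY hm hn hs hfg hf hg
    refine h3.trans ((h2 P.Q X Y hX hY _ c hc E.E E.odd ρ t hρ hρt hs).trans ?_)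
    have h4 : ((ρ + 1 : ℝ) / (t - 1)) ≤ 4 * (ρ / t) := by
      rw [mul_div_assoc', div_le_div_iff₀ (by linarith) (by linarith)]
      nlinarith
    have h5 : ((ρ + 1 : ℝ) / (t - 1)) ^ (1 / 2 : ℝ) ≤ 2 * ((ρ : ℝ) / t) ^ (1 / 2 : ℝ) := by
      have h6 : (0 : ℝ) ≤ ρ / t := by
        have : (0 : ℝ) ≤ t := by linarith
        positivity
      have h7 := Real.rpow_le_rpow (by
        have : (0 : ℝ) ≤ t - 1 := by linarith
        positivity) h4 (by norm_num : (0 : ℝ) ≤ 1 / 2)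
      rw [Real.mul_rpow (by norm_num) h6] at h7
      have h8 : (4 : ℝ) ^ (1 / 2 : ℝ) = 2 := by
        rw [show (4 : ℝ) = 2 ^ (2 : ℝ) by norm_num, ← Real.rpow_mul (by norm_num)]
        norm_num
      rwa [h8] at h7
    calc C2 * ((ρ + 1 : ℝ) / (t - 1)) ^ (1 / 2 : ℝ) ≤ C2 * (2 * ((ρ : ℝ) / t) ^ (1 / 2 : ℝ)) :=
          mul_le_mul_of_nonneg_left h5 hC2.le
      _ = 2 * C2 * ((ρ : ℝ) / t) ^ (1 / 2 : ℝ) := by ring
      _ ≤ _ := mul_le_mul_of_nonneg_right (by linarith) hpos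

end Pool.Agent.H66.W
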