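import Mathlib
import Pool.Agent.H66.W.Vis

set_option autoImplicit false
open Finset

/-! Every type has a convex corner which is not a mark. -/

namespace Pool.Agent.H66.W

open Pool.Agent.H75.Perc (dir dir_cases)
open Pool.Agent.Q1.M4

/-- at a left turn there is exactly one cell -/
lemma oneCell_aux {Q : Finset Cell} {s : Cell × ℤ} (hs : IsSide Q s)
    (h : (nextSide Q s).2 = s.2 + 1) : OneCell Q (tail (nextSide Q s)) s.1 := by
  obtain ⟨⟨i, j⟩, k⟩ := s
  obtain ⟨h1, h2⟩ := hs
  unfold nextSide at h ⊢
  simp only at h h1 h2 ⊢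
  by_cases ha : (i, j) + dir k + dir (k - 1) ∈ Q
  · rw [if_pos ha] at h
    simp only at h
    omega
  · rw [if_neg ha] at h ⊢
    by_cases hb : (i, j) + dir k ∈ Q
    · rw [if_pos hb] at h
      simp only at h
      omega
    · rw [if_neg hb]
      refine ⟨h1, ?_, ?_⟩
      · unfold Around tail
        simp only
        rcases dir_cases k with ⟨a, e⟩ | ⟨a, e⟩ | ⟨a, e⟩ | ⟨a, e⟩ <;> split_ifs <;>
          first | (exfalso; omega) | (simp only [Prod.mk_add_mk]; omega) | (simp only; omega) | simp
      · rintro ⟨d1, d2⟩ hd hA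
        unfold Around tail at hA
        simp only at hA
        have key : ∀ a b : ℤ, (a, b) ∉ Q → ¬ (d1 = a ∧ d2 = b) := by
          rintro a b hab ⟨rfl, rfl⟩
          exact hab hd
        rcases dir_cases k with ⟨a, e⟩ | ⟨a, e⟩ | ⟨a, e⟩ | ⟨a, e⟩ <;>
        rcases dir_cases (k - 1) with ⟨b, f⟩ | ⟨b, f⟩ | ⟨b, f⟩ | ⟨b, f⟩ <;>
        first
          | (exfalso; omega)
          | (rw [e] at hb; rw [e, f] at ha; rw [f] at h2
             simp only [Prod.mk_add_mk] at ha hb h2
             have k1 := key _ _ ha
             have k2 := key _ _ hb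
             have k3 := key _ _ h2
             split_ifs at hA <;>
             first
               | (exfalso; omega)
               | (simp only [Prod.mk_add_mk] at hA
                  refine Prod.ext ?_ ?_ <;> simp only <;> omega))

/-- at a left turn there is exactly one cell -/
lemma oneCell_of_left {P : PType} {n : ℕ} (h : (P.side (n + 1)).2 = (P.side n).2 + 1) :
    OneCell P.Q (P.vert (n + 1)) (P.side n).1 := by
  unfold PType.vert
  rw [P.side_succ n] at h ⊢
  exact oneCell_aux (P.isSide n) h

/-- **an unmarked convex corner** -/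
theorem exists_corner (P : PType) : ∃ n < P.N, n ≠ 0 ∧ n ≠ P.m ∧ ∃ c, OneCell P.Q (P.vert n) c := by
  by_contra hno
  push Not at hno
  have hle : ∀ n, (P.side (n + 1)).2 ≤ (P.side n).2 + 1 := by
    intro n
    rw [P.side_succ n]
    unfold nextSide
    split_ifs <;> simp only <;> omega
  have hle0 : ∀ n, n + 1 < P.N → n + 1 ≠ P.m → (P.side (n + 1)).2 ≤ (P.side n).2 := by
    intro n h1 h2
    by_contra h3
    have h4 : (P.side (n + 1)).2 = (P.side n).2 + 1 := by
      have := hle n
      omega
    exact hno (n + 1) h1 (by omega) h2 _ (oneCell_of_left h4)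
  have key : ∀ n : ℕ, n < P.N → (P.side n).2 ≤ (P.side 0).2 + (if P.m ≤ n then 1 else 0) := by
    intro n
    induction n with
    | zero =>
      intro _
      split_ifs <;> omega
    | succ n ih =>
      intro hn
      have h1 := ih (by omega)
      by_cases hm : n + 1 = P.m
      · have h2 := hle n
        rw [if_neg (by omega)] at h1
        rw [if_pos (by omega)]
        omega
      · have h2 := hle0 n hn hm
        by_cases hm2 : P.m ≤ n
        · rw [if_pos hm2] at h1
          rw [if_pos (by omega)]
          omega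
        · rw [if_neg hm2] at h1
          rw [if_neg (by omega)]
          omega
  have hN : 0 < P.N := by have := P.hmN; omega
  obtain ⟨n, hn⟩ : ∃ n, P.N = n + 1 := ⟨P.N - 1, by omega⟩
  have h1 := key n (by omega)
  have h2 := hle n
  have h3 : (P.side (n + 1)).2 = (P.side 0).2 + 4 := by
    rw [← hn]
    have : P.side P.N = (P.s0.1, P.s0.2 + 4) := P.period
    rw [this]
    rfl
  split_ifs at h1 <;> omega

end Pool.Agent.H66.W
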