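import Mathlib
import Pool.Agent.H66.W.Turn
import Pool.Agent.H66.W.TIloc
import Pool.Agent.Q1.M4.Main
import Pool.Agent.H87.FM.LimA

set_option autoImplicit false
open Set Filter Topology

/-! **From the local translation invariance of the limits to `HolDob`** (W-G, piece (4)).

`CTI` : near every interior point the primitives are approximated, up to constants and for every error, by
functions the limits of which have translation invariant rectangle integrals. The constant of the rectangle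
integral vanishes because the oscillation at a convex corner which is not a mark is `o(δ)`. -/

namespace Pool.Agent.H66.W

open Pool.Agent.H75.Perc hiding WL CT hh
open Pool.Agent.H75.TwoArm Pool.Agent.H99.NC Pool.Agent.Q1.M4 Pool.Agent.Q1.Dob
open Pool.Agent.Q1 (Env ph AP)
open Pool.Agent.Q1.M5 (App)
open Pool.Agent.Q1.M6f.Glue (TI OscO JJ differentiableOn_of_TI)
open Pool.Agent.H87.FM (HD)
open Pool.Agent.H52.Q1 (small_ev Small)

/-- Near `z0` the functions `G j` are Hoelder and the rectangle integrals of their limit are translation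
invariant. -/
structure LocTI (R : ℕ → ℝ) (F : Filter ℕ) (G : ℕ → ℤ × ℤ → ℂ) (z0 : ℂ) (r : ℝ) : Prop where
  hold : ∃ C > 0, ∀ᶠ j in F, ∀ v w : ℤ × ℤ, ‖lat v / (R j : ℂ) - z0‖ < r →
    ‖lat w / (R j : ℂ) - z0‖ < r → ‖G j v - G j w‖ ≤ C * (‖lat v - lat w‖ / R j) ^ (2 / 3 : ℝ)
  ti : ∀ g : ℂ → ℂ, GLim R F G z0 r g → TI (Metric.ball z0 r) g

/-- At every interior point and for every error the functions `H j` are approximated, up to constants, by
functions with the property `LocTI`. -/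
def CTI (P : PType) (x y : ℤ → ℝ) (R : ℕ → ℝ) (H : ℕ → ℤ × ℤ → ℂ) : Prop :=
  ∀ U : Ultrafilter ℕ, (U : Filter ℕ) ≤ atTop → ∀ z ∈ Om P.Q x y, ∃ r > 0, ∀ ε > 0,
    ∃ G : ℕ → ℤ × ℤ → ℂ, LocTI R U G z r ∧ ∀ᶠ j in (U : Filter ℕ), ∀ v w : ℤ × ℤ,
      ‖lat v / (R j : ℂ) - z‖ < r → ‖lat w / (R j : ℂ) - z‖ < r →
      ‖(H j v - H j w) - (G j v - G j w)‖ ≤ ε

variable {P : PType} {x y : ℤ → ℝ} {R : ℕ → ℝ} {X Y : ℕ → ℤ → ℤ} {H : ℕ → ℤ × ℤ → ℂ}

/-- **Translation invariance of the limit** -/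
theorem ti_of_CTI (hx : StrictMono x) (hy : StrictMono y) (hA : Approx x y R X Y)
    (hcr : CTI P x y R H) (U : Ultrafilter ℕ) (hU : (U : Filter ℕ) ≤ atTop) {h : ℂ → ℂ}
    (hc : ContinuousOn h (Om P.Q x y))
    (hh : ∀ z ∈ Reg P.Q x y, IsLim P R X Y H U z (h z)) : TI (Om P.Q x y) h := by
  refine TI_of_local (isOpen_Om _ _ _) (isPreconnected_Om hx hy P.good.conn) hc ?_
  intro z0 hz0
  obtain ⟨r1, hr1, hcr⟩ := hcr U hU z0 hz0
  obtain ⟨r2, hr2, hball⟩ := Metric.isOpen_iff.1 (isOpen_Om P.Q x y) z0 hz0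
  set r := min r1 r2 with hrdef
  have hr : 0 < r := lt_min hr1 hr2
  have hR := hA.R_top
  have hsub : Metric.ball z0 r ⊆ Metric.ball z0 r1 :=
    Metric.ball_subset_ball (min_le_left _ _)
  have hsub2 : Metric.ball z0 r ⊆ Om P.Q x y :=
    (Metric.ball_subset_ball (min_le_right _ _)).trans hball
  refine ⟨r, hr, TI_of_approx (hc.mono hsub2) ?_⟩
  intro ε hε
  obtain ⟨G, hG, hcl⟩ := hcr ε hε
  obtain ⟨g, hlim⟩ := exists_gLim hR U hU hr1 hG.hold
  refine ⟨g, ?_, TI.mono (hG.ti g hlim) hsub, fun z hz w' hw' => ?_⟩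
  · obtain ⟨C, hC, hold⟩ := hG.hold
    refine (continuousOn_of_hold (C := C) one_pos fun z hz z' hz' _ => ?_).mono hsub
    exact hlim.hold hR hU hold hz hz'
  · obtain ⟨v, hv⟩ := exists_appr (P := P) hx hy hA hU (Om_subset _ _ _ (hsub2 hz))
    obtain ⟨w, hw⟩ := exists_appr (P := P) hx hy hA hU (Om_subset _ _ _ (hsub2 hw'))
    have a1 := hh _ (Om_subset _ _ _ (hsub2 hz)) _ hv
    have a2 := hh _ (Om_subset _ _ _ (hsub2 hw')) _ hw
    have b1 := hlim z (hsub hz) _ hv.2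
    have b2 := hlim w' (hsub hw') _ hw.2
    have hl := ((a1.sub a2).sub (b1.sub b2)).norm
    refine le_of_tendsto hl ?_
    filter_upwards [hcl, near_of_tendsto hv.2 (hsub hz), near_of_tendsto hw.2 (hsub hw')] with
      j h1 h2 h3
    have e : H j (v j) - H j (w j) - (G j (v j) - G j (fl R z0 j) -
        (G j (w j) - G j (fl R z0 j))) = (H j (v j) - H j (w j)) - (G j (v j) - G j (w j)) := by
      ring
    rw [e]
    exact h1 _ _ h2 h3

/-! ### small oscillation at a corner -/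

/-- Small oscillation near a corner of a cell. -/
theorem oscO_corner' {Ω : Set ℂ} {g : ℂ → ℂ} {x y : ℤ → ℝ} (hx : StrictMono x) (hy : StrictMono y)
    {c p : ℤ × ℤ}
    (hc : ∀ z : ℂ, x c.1 < z.re → z.re < x (c.1 + 1) → y c.2 < z.im → z.im < y (c.2 + 1) → z ∈ Ω)
    (hp1 : p.1 = c.1 ∨ p.1 = c.1 + 1) (hp2 : p.2 = c.2 ∨ p.2 = c.2 + 1) {C β δ0 : ℝ} (hβ : 1 < β)
    (hδ0 : 0 < δ0) (hb : ∀ δ : ℝ, 0 < δ → δ < δ0 → ∀ z ∈ Ω, ∀ z' ∈ Ω, ‖z - pt x y p‖ ≤ δ →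
      ‖z' - pt x y p‖ ≤ δ → ‖g z - g z'‖ ≤ C * δ ^ β) : OscO Ω g := by
  intro η hη
  set A : ℝ := (|C| + 1) * 4 ^ β with hA
  have hA0 : 0 < A := by positivity
  have hβ1 : 0 < β - 1 := by linarith
  have hX : 0 < x (c.1 + 1) - x c.1 := sub_pos.2 (hx (by omega))
  have hY : 0 < y (c.2 + 1) - y c.2 := sub_pos.2 (hy (by omega))
  set m : ℝ := min (x (c.1 + 1) - x c.1) (y (c.2 + 1) - y c.2) with hm
  have hm0 : 0 < m := lt_min hX hY
  refine ⟨min (min (δ0 / 4) (m / 3)) ((η / A) ^ (1 / (β - 1))), by positivity, fun δ hδ hδl => ?_⟩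
  rw [lt_min_iff, lt_min_iff] at hδl
  obtain ⟨⟨l1, l2⟩, l3⟩ := hδl
  have hm1 : m ≤ x (c.1 + 1) - x c.1 := min_le_left _ _
  have hm2 : m ≤ y (c.2 + 1) - y c.2 := min_le_right _ _
  -- the square
  have pick : ∀ (f : ℤ → ℝ) (a b : ℤ), m ≤ f (a + 1) - f a → (b = a ∨ b = a + 1) →
      ∃ s0 : ℝ, ∀ s : ℝ, s ∈ Icc s0 (s0 + δ) → f a < s ∧ s < f (a + 1) ∧ |s - f b| ≤ 2 * δ := by
    intro f a b hf hab
    rcases hab with rfl | rfl
    · refine ⟨f b + δ, fun s hs => ⟨by linarith [hs.1], by linarith [hs.2], ?_⟩⟩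
      rw [abs_le]; constructor <;> linarith [hs.1, hs.2]
    · refine ⟨f (a + 1) - 2 * δ, fun s hs => ⟨by linarith [hs.1], by linarith [hs.2], ?_⟩⟩
      rw [abs_le]; constructor <;> linarith [hs.1, hs.2]
  obtain ⟨x0, hx0⟩ := pick x c.1 p.1 hm1 hp1
  obtain ⟨y0, hy0⟩ := pick y c.2 p.2 hm2 hp2
  have hsq : ∀ z ∈ Icc x0 (x0 + δ) ×ℂ Icc y0 (y0 + δ), z ∈ Ω ∧ ‖z - pt x y p‖ ≤ 4 * δ := by
    intro z hz
    rw [Complex.mem_reProdIm] at hz
    obtain ⟨a1, a2, a3⟩ := hx0 z.re hz.1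
    obtain ⟨b1, b2, b3⟩ := hy0 z.im hz.2
    refine ⟨hc z a1 a2 b1 b2, (Complex.norm_le_abs_re_add_abs_im _).trans ?_⟩
    have e1 : (z - pt x y p).re = z.re - x p.1 := by simp [pt]
    have e2 : (z - pt x y p).im = z.im - y p.2 := by simp [pt]
    rw [e1, e2]
    linarith
  refine ⟨x0, y0, fun z hz => (hsq z hz).1, fun z hz z' hz' => ?_⟩
  refine (hb (4 * δ) (by positivity) (by linarith) z (hsq z hz).1 z' (hsq z' hz').1 (hsq z hz).2
    (hsq z' hz').2).trans ?_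
  have h1 : C * (4 * δ) ^ β ≤ A * δ ^ β := by
    rw [Real.mul_rpow (by norm_num) hδ.le, hA, mul_assoc]
    refine mul_le_mul_of_nonneg_right ((le_abs_self C).trans (by linarith)) (by positivity)
  refine h1.trans ?_
  have h2 : δ ^ β = δ * δ ^ (β - 1) := by
    nth_rw 2 [← Real.rpow_one δ]
    rw [← Real.rpow_add hδ]
    congr 1; ring
  have h3 : δ ^ (β - 1) ≤ η / A := by
    have : δ ^ (β - 1) ≤ ((η / A) ^ (1 / (β - 1))) ^ (β - 1) := Real.rpow_le_rpow hδ.le l3.le hβ1.le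
    rwa [← Real.rpow_mul (by positivity), one_div_mul_cancel hβ1.ne', Real.rpow_one] at this
  rw [h2]
  calc A * (δ * δ ^ (β - 1)) = δ * (A * δ ^ (β - 1)) := by ring
    _ ≤ δ * (A * (η / A)) := by gcongr
    _ = η * δ := by field_simp

/-- **The discrete corner bound** with the exponent `2/3 + 1/2`. -/
theorem corner_scl {K : Env → Prop} (hAP : AP K)
    (hfr : ∀ Z, K Z → ∀ a b c d : ℤ, ∀ ω1 ⊆ Z.E \ Bx a b c d, K (Z.freeze (Bx a b c d) ω1))
    (hx : StrictMono x) (hy : StrictMono y) (hA : App x y R X Y) {Ev : ℕ → Env}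
    {Hv Hf : ℕ → ℤ × ℤ → ℂ} {u : ℂ} {C0 : ℝ}
    (hP : ∀ᶠ j in atTop, PH K P (X j) (Y j) (Ev j) (Hv j) (Hf j) u C0)
    (hV : ∀ᶠ j in atTop, ∃ c0, PV P (X j) (Y j) (Ev j) c0) {n : ℕ} (hn : n < P.N) (hn0 : n ≠ 0)
    (hnm : n ≠ P.m) {c : Cell} (hc : OneCell P.Q (P.vert n) c) :
    ∃ C > 0, ∃ r > 0, ∀ ρ > 0, ρ ≤ r → ∀ᶠ j in atTop, ∀ v, inV P.Q (X j) (Y j) v →
      ‖lat v - lat (lpt (X j) (Y j) (P.vert n))‖ ≤ ρ * R j →
      ‖scl R Hv j v - scl R Hv j (lpt (X j) (Y j) (P.vert n))‖ ≤ C * ρ ^ (2 / 3 + 1 / 2 : ℝ) := by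
  obtain ⟨C, hC, hAP⟩ := hAP
  obtain ⟨C1, hC1, hvis⟩ := visit_convex
  obtain ⟨c0, hc0, hsm⟩ := small_ev hx hy (P.vert n)
  refine corner_of_regBound hx hy hA.app (H := scl R Hv)
    (A := (C + 4) * (C1 * (80 / c0) ^ (1 / 2 : ℝ))) (c := 1 / 2) (r := c0 / 80) (by positivity)
    (by positivity) (q := fun j => lpt (X j) (Y j) (P.vert n)) (by
      filter_upwards [hA.app.tail_mem hx hy (P.side n)] with j hj
      exact ⟨_, (P.isSide n).1, hj⟩) ?_
  intro ρ hρ hρr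
  filter_upwards [hP, hV, hA.mono, hsm R X Y hA.app, hA.app.R_top.eventually_gt_atTop 0,
    hA.app.R_top.eventually_gt_atTop (3 / (20 * ρ)), hA.app.R_top.eventually_gt_atTop (20 / c0)]
    with j hj hVj hm hs hR0 hR1 hR2
  obtain ⟨cr, hcr⟩ := hVj
  rw [div_lt_iff₀ (by positivity)] at hR1
  rw [div_lt_iff₀ hc0] at hR2
  set L : ℤ := ⌈20 * ρ * R j⌉ with hL
  have hL1 : (L : ℝ) < 20 * ρ * R j + 1 := Int.ceil_lt_add_one _
  have hL0 : 20 * ρ * R j ≤ L := Int.le_ceil _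
  have hpos : 0 < 20 * ρ * R j := by positivity
  have hLpos : 0 < L := by
    have : (0 : ℝ) < L := lt_of_lt_of_le hpos hL0
    exact_mod_cast this
  have hL2 : ((L + 2 : ℤ) : ℝ) ≤ 40 * ρ * R j := by
    push_cast
    nlinarith
  -- the outer radius
  set t : ℤ := ⌊c0 * R j⌋ with ht
  have ht1 : (t : ℝ) ≤ c0 * R j := Int.floor_le _
  have ht2 : c0 * R j < t + 1 := Int.lt_floor_add_one _
  have ht3 : c0 * R j / 2 ≤ t := by
    have : (20 : ℝ) < R j * c0 := hR2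
    nlinarith
  have ht0 : (0 : ℝ) < t := by nlinarith
  have hLt : (L + 2) + 3 ≤ t := by
    have h1 : ((L + 2 : ℤ) : ℝ) ≤ c0 * R j / 2 := by
      refine hL2.trans ?_
      have : 40 * ρ ≤ c0 / 2 := by linarith
      nlinarith
    have h2 : ((L + 2 : ℤ) : ℝ) + 3 ≤ t := by
      have : (20 : ℝ) < R j * c0 := hR2
      nlinarith
    exact_mod_cast h2
  have h1 := hvis P (X j) (Y j) hm.1 hm.2 (Ev j) cr hcr n hn hn0 hnm c hc (L + 2) t (by omega) hLt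
    (hs t ht1)
  have h2 := regBound_of_visit (L := L) (p := lpt (X j) (Y j) (P.vert n)) hm.1 hm.2 hC.le hAP
    hfr hj.mem hj.sub hj.prim h1
  have h3 : RegBound P.Q (X j) (Y j) L (lpt (X j) (Y j) (P.vert n))
      ((C + 4) * (C1 * (80 / c0) ^ (1 / 2 : ℝ)) * ρ ^ (1 / 2 : ℝ)) (Hv j) := by
    refine h2.mono ?_
    rw [mul_assoc, mul_assoc]
    refine mul_le_mul_of_nonneg_left ?_ (by positivity)
    refine mul_le_mul_of_nonneg_left ?_ hC1.le
    rw [← Real.mul_rpow (by positivity) hρ.le]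
    refine Real.rpow_le_rpow ?_ ?_ (by norm_num)
    · have : (0 : ℝ) ≤ ((L + 2 : ℤ) : ℝ) := by
        have : (0 : ℤ) ≤ L + 2 := by omega
        exact_mod_cast this
      exact div_nonneg this ht0.le
    · rw [div_le_iff₀ ht0]
      refine hL2.trans ?_
      have e : 40 * ρ * R j = 80 / c0 * ρ * (c0 * R j / 2) := by field_simp; ring
      rw [e]
      exact mul_le_mul_of_nonneg_left ht3 (by positivity)
  have h4 := h3.nrm (u := 1) (by simp) (s := R j ^ (2 / 3 : ℝ)) (by positivity) (0, 0)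
  have e : ∀ A : ℝ, A / R j ^ (2 / 3 : ℝ) = A * R j ^ (-(2 / 3) : ℝ) := by
    intro A
    rw [Real.rpow_neg hR0.le]; rfl
  rw [e] at h4
  intro d hd
  have h5 := h4 d hd
  have e2 : ∀ v w : ℤ × ℤ, scl R Hv j w - scl R Hv j v =
      nrm 1 (R j ^ (2 / 3 : ℝ)) (Hv j) (0, 0) w - nrm 1 (R j ^ (2 / 3 : ℝ)) (Hv j) (0, 0) v := by
    intro v w
    rw [nrm_sub]
    unfold scl
    rw [map_one, Real.rpow_neg hR0.le]
    push_cast
    ring
  exact ⟨fun v r a b c u d e => by rw [e2]; exact h5.box v r a b c u d e,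
    fun v a b c => by rw [e2]; exact h5.hor v a b c,
    fun v a b c => by rw [e2]; exact h5.ver v a b c⟩

/-- the Hoelder bound of the scaled primitives -/
theorem hold_scl {K : Env → Prop} (hAP : AP K)
    (hfr : ∀ Z, K Z → ∀ a b c d : ℤ, ∀ ω1 ⊆ Z.E \ Bx a b c d, K (Z.freeze (Bx a b c d) ω1))
    (hx : StrictMono x) (hy : StrictMono y) (hA : App x y R X Y) {Ev : ℕ → Env}
    {Hv Hf : ℕ → ℤ × ℤ → ℂ} {u : ℂ} {C0 : ℝ}
    (hP : ∀ᶠ j in atTop, PH K P (X j) (Y j) (Ev j) (Hv j) (Hf j) u C0)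
    (hV : ∀ᶠ j in atTop, ∃ c0, PV P (X j) (Y j) (Ev j) c0) :
    ∃ C > 0, ∃ δ > 0, ∀ᶠ j in atTop, ∀ v v', inV P.Q (X j) (Y j) v →
      inV P.Q (X j) (Y j) v' → ‖lat v - lat v'‖ ≤ δ * R j →
      ‖scl R Hv j v - scl R Hv j v'‖ ≤ C * (‖lat v - lat v'‖ / R j) ^ (2 / 3 : ℝ) := by
  have hR := pReg_of hAP hfr hx hy hA hP hV
  have hRpos : ∀ᶠ j in atTop, 0 < R j := hA.app.R_top.eventually_gt_atTop 0
  obtain ⟨A, hA0, hreg⟩ := hR.all
  refine hold_of_regBound hx hy hA.app (A := A) hA0 ?_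
  filter_upwards [hreg, hRpos] with j h1 h2 L p
  have h3 := (h1 L p).nrm (u := 1) (by simp) (s := R j ^ (2 / 3 : ℝ)) (by positivity) (0, 0)
  have e : A / R j ^ (2 / 3 : ℝ) = A * R j ^ (-(2 / 3) : ℝ) := by
    rw [Real.rpow_neg h2.le]; rfl
  rw [e] at h3
  intro c hc
  have h4 := h3 c hc
  have e2 : ∀ v w : ℤ × ℤ, scl R Hv j w - scl R Hv j v =
      nrm 1 (R j ^ (2 / 3 : ℝ)) (Hv j) (0, 0) w - nrm 1 (R j ^ (2 / 3 : ℝ)) (Hv j) (0, 0) v := by
    intro v w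
    rw [nrm_sub]
    unfold scl
    rw [map_one, Real.rpow_neg h2.le]
    push_cast
    ring
  exact ⟨fun v r a b c u d e => by rw [e2]; exact h4.box v r a b c u d e,
    fun v a b c => by rw [e2]; exact h4.hor v a b c,
    fun v a b c => by rw [e2]; exact h4.ver v a b c⟩

end Pool.Agent.H66.W
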