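import Mathlib
import Pool.Agent.H66.W.Top

set_option autoImplicit false
open Set Filter Topology

/-! Finite linear combinations (mixtures) of sequences with the property `LocTI`. -/

namespace Pool.Agent.H66.W

open Pool.Agent.Q1.M4
open Pool.Agent.Q1.M6f.Glue (TI JJ)

variable {R : ℕ → ℝ} {z : ℂ} {r : ℝ}

lemma TI_const (Ω : Set ℂ) (a : ℂ) : TI Ω (fun _ => a) := by
  intro b c d e x y _ _ _ _
  unfold JJ
  simp only [intervalIntegral.integral_const]
  simp

lemma gLim_unique {U : Ultrafilter ℕ} (hR : Tendsto R atTop atTop) (hU : (U : Filter ℕ) ≤ atTop)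
    {G : ℕ → ℤ × ℤ → ℂ} {g g' : ℂ → ℂ} (h : GLim R U G z r g) (h' : GLim R U G z r g') :
    ∀ w ∈ Metric.ball z r, g w = g' w := fun w hw =>
  tendsto_nhds_unique (h w hw _ ((fl_tendsto hR w).mono_left hU))
    (h' w hw _ ((fl_tendsto hR w).mono_left hU))

/-- the zero sequence -/
lemma LocTI.zero {U : Ultrafilter ℕ} (hU : (U : Filter ℕ) ≤ atTop) (hR : Tendsto R atTop atTop) :
    LocTI R U (fun _ _ => 0) z r where
  hold := by
    refine ⟨1, one_pos, ?_⟩
    filter_upwards [hU (hR.eventually_gt_atTop 0)] with j hj v w _ _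
    rw [sub_self, norm_zero]
    positivity
  ti := by
    intro g hg
    have h0 : GLim R U (fun _ _ => (0 : ℂ)) z r (fun _ => 0) := by
      intro w _ v _
      simp
    exact TI.congr (TI_const _ 0) (gLim_unique hR hU hg h0)

/-- linear combinations of two sequences -/
theorem LocTI.lin {U : Ultrafilter ℕ} (hU : (U : Filter ℕ) ≤ atTop) (hR : Tendsto R atTop atTop)
    (hr : 0 < r) {G1 G2 : ℕ → ℤ × ℤ → ℂ} (h1 : LocTI R U G1 z r) (h2 : LocTI R U G2 z r) (p q : ℂ) :
    LocTI R U (fun j v => p * G1 j v + q * G2 j v) z r where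
  hold := by
    obtain ⟨C1, hC1, k1⟩ := h1.hold
    obtain ⟨C2, hC2, k2⟩ := h2.hold
    refine ⟨‖p‖ * C1 + ‖q‖ * C2 + 1, by positivity, ?_⟩
    filter_upwards [k1, k2, hU (hR.eventually_gt_atTop 0)] with j m1 m2 hj v w hv hw
    have e : p * G1 j v + q * G2 j v - (p * G1 j w + q * G2 j w) =
        p * (G1 j v - G1 j w) + q * (G2 j v - G2 j w) := by ring
    rw [e]
    have hpos : 0 ≤ (‖lat v - lat w‖ / R j) ^ (2 / 3 : ℝ) := by positivity
    calc ‖p * (G1 j v - G1 j w) + q * (G2 j v - G2 j w)‖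
        ≤ ‖p‖ * ‖G1 j v - G1 j w‖ + ‖q‖ * ‖G2 j v - G2 j w‖ := by
          refine (norm_add_le _ _).trans ?_
          rw [norm_mul, norm_mul]
      _ ≤ ‖p‖ * (C1 * (‖lat v - lat w‖ / R j) ^ (2 / 3 : ℝ)) +
          ‖q‖ * (C2 * (‖lat v - lat w‖ / R j) ^ (2 / 3 : ℝ)) :=
          add_le_add (mul_le_mul_of_nonneg_left (m1 v w hv hw) (norm_nonneg _))
            (mul_le_mul_of_nonneg_left (m2 v w hv hw) (norm_nonneg _))
      _ ≤ _ := by nlinarith
  ti := by
    intro g hg
    obtain ⟨g1, hg1⟩ := exists_gLim hR U hU hr h1.hold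
    obtain ⟨g2, hg2⟩ := exists_gLim hR U hU hr h2.hold
    have hlin : GLim R U (fun j v => p * G1 j v + q * G2 j v) z r
        (fun w => p * g1 w + q * g2 w) := by
      intro w hw v hv
      refine (((hg1 w hw v hv).const_mul p).add ((hg2 w hw v hv).const_mul q)).congr fun j => ?_
      ring
    have c1 : ContinuousOn g1 (Metric.ball z r) := by
      obtain ⟨C, hC, hold⟩ := h1.hold
      exact continuousOn_of_hold (C := C) one_pos fun w hw w' hw' _ =>
        hg1.hold hR hU hold hw hw'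
    have c2 : ContinuousOn g2 (Metric.ball z r) := by
      obtain ⟨C, hC, hold⟩ := h2.hold
      exact continuousOn_of_hold (C := C) one_pos fun w hw w' hw' _ =>
        hg2.hold hR hU hold hw hw'
    exact TI.congr (Q1.M6f.Glue.TI.lin c1 c2 (h1.ti g1 hg1) (h2.ti g2 hg2) p q)
      (gLim_unique hR hU hg hlin)

/-- **Finite linear combinations.** -/
theorem LocTI.mix {ι : Type*} (s : Finset ι) (p : ι → ℂ) (G : ι → ℕ → ℤ × ℤ → ℂ)
    {U : Ultrafilter ℕ} (hU : (U : Filter ℕ) ≤ atTop) (hR : Tendsto R atTop atTop) (hr : 0 < r)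
    (h : ∀ i ∈ s, LocTI R U (G i) z r) :
    LocTI R U (fun j v => ∑ i ∈ s, p i * G i j v) z r := by
  classical
  induction s using Finset.induction_on with
  | empty =>
    simp only [Finset.sum_empty]
    exact LocTI.zero hU hR
  | insert a s ha ih =>
    have h1 := ih fun i hi => h i (Finset.mem_insert_of_mem hi)
    have h2 := LocTI.lin hU hR hr (h a (Finset.mem_insert_self a s)) h1 (p a) 1
    simp only [Finset.sum_insert ha]
    simpa only [one_mul] using h2

/-- smaller balls -/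
lemma LocTI.mono {U : Ultrafilter ℕ} (hU : (U : Filter ℕ) ≤ atTop) (hR : Tendsto R atTop atTop)
    {r' : ℝ} (hr : r' ≤ r) (hr' : 0 < r') {G : ℕ → ℤ × ℤ → ℂ} (h : LocTI R U G z r) :
    LocTI R U G z r' where
  hold := by
    obtain ⟨C, hC, k⟩ := h.hold
    refine ⟨C, hC, ?_⟩
    filter_upwards [k] with j hj v w hv hw
    exact hj v w (hv.trans_le hr) (hw.trans_le hr)
  ti := by
    intro g hg
    obtain ⟨g1, hg1⟩ := exists_gLim hR U hU (hr'.trans_le hr) h.hold
    have hsub : Metric.ball z r' ⊆ Metric.ball z r := Metric.ball_subset_ball hr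
    exact TI.congr (TI.mono (h.ti g1 hg1) hsub)
      (gLim_unique hR hU hg fun w hw => hg1 w (hsub hw))

/-- only the increments matter -/
lemma LocTI.congr {U : Ultrafilter ℕ} {G G' : ℕ → ℤ × ℤ → ℂ} (h : LocTI R U G z r)
    (he : ∀ᶠ j in (U : Filter ℕ), ∀ v w, G' j v - G' j w = G j v - G j w) : LocTI R U G' z r where
  hold := by
    obtain ⟨C, hC, k⟩ := h.hold
    refine ⟨C, hC, ?_⟩
    filter_upwards [k, he] with j hj he v w hv hw
    rw [he]
    exact hj v w hv hw
  ti := by
    intro g hg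
    refine h.ti g fun w hw v hv => ?_
    refine (hg w hw v hv).congr' ?_
    filter_upwards [he] with j he
    exact he _ _

end Pool.Agent.H66.W
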