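import Mathlib
import Pool.Agent.H26.W.RoomD
import Pool.Agent.H65.G.RoomN

set_option autoImplicit false
open Finset

/-!
# The notches of the room (R2)

`rt D h u e` : tile of the label `e` in the frame of the room. `Zn` : the random tiles of the window.
`NT D σ h u` : labels of the plates which are random in the window, `ZR D X h u s` : the environment with the
plates frozen except the notches.
-/

namespace Pool.Agent.H66.W

open Pool.Agent.H75.Perc hiding WL CT hh PB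
open Pool.Agent.H75.TwoArm hiding BX
open Pool.Agent.Q1.M4 (Cell lat)
open Pool.Agent.Q1 Pool.Agent.Q1.M6c
open Pool.Agent.H33.Q1
open Pool.Agent.H58.W Pool.Agent.H50.W Pool.Agent.H41.W Pool.Agent.H6.W Pool.Agent.H98.W
open Pool.Agent.H65.G Pool.Agent.H26.W
open Pool.Agent.H74.Win (InP)

variable (D : RG)

/-- tile of a label in the frame of the room -/
def rt (h : ℕ) (u e : ℤ × ℤ) : ℤ × ℤ :=
  ((tt ((syT u).G' e)).1, (tt ((syT u).G' e)).2 + 2 * (h : ℤ) * ((D.N : ℤ) - D.τ))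

/-- the random tiles of the window -/
def Zn (σ : ℕ × ℤ → Bool) (n : ℤ) (x y : ℤ) : Prop :=
  (0 ≤ y ∧ y < n * D.HR) ∧ ((D.AL (y / n) ≤ x / n ∧ x / n < D.AR (y / n)) ∨ D.NL σ n x y ∨
    D.NR σ n x y)

lemma zn_iff (σ : ℕ × ℤ → Bool) {n : ℤ} (h2 : 2 ≤ n) (he : n % 2 = 0) {x y : ℤ} :
    InP ((D.cw σ).win n h2 he) false x y ↔ Zn D σ n x y := D.zone_iff σ h2 he

open Classical in
/-- labels of the notches -/
noncomputable def NT (σ : ℕ × ℤ → Bool) (h : ℕ) (u : ℤ × ℤ) : Finset (ℤ × ℤ) :=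
  (D.RL h u).filter (fun e => Zn D σ (2 * (h : ℤ)) (rt D h u e).1 (rt D h u e).2)

/-- **the environment with the plates frozen except the notches** -/
noncomputable def ZR (X : Env) (h : ℕ) (u : ℤ × ℤ) (s : Finset ((ℤ × ℤ) ⊕ (ℕ × ℤ))) : Env :=
  X.freeze (X.E \ (D.RL h u \ NT D (sc s) h u))
    (up (D.RL h u) (D.bR h u) s \ NT D (sc s) h u)

variable {D} {X : Env} {h : ℕ} {u : ℤ × ℤ} {s : Finset ((ℤ × ℤ) ⊕ (ℕ × ℤ))} {σ : ℕ × ℤ → Bool}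

lemma mem_NT {e : ℤ × ℤ} :
    e ∈ NT D σ h u ↔ e ∈ D.RL h u ∧ Zn D σ (2 * (h : ℤ)) (rt D h u e).1 (rt D h u e).2 := by
  classical
  unfold NT
  rw [mem_filter]

lemma mem_RL (hh : 0 < h) {e : ℤ × ℤ} : e ∈ D.RL h u ↔
    (e.1 + e.2) % 2 = 1 ∧ D.rg (ct (2 * (h : ℤ)) (tt ((syT u).G' e))) ≠ none := by
  have hn : (0 : ℤ) < 2 * (h : ℤ) := by positivity
  unfold RG.RL
  rw [mem_TLu hn, RG.mem_Rf]

lemma ZR_E : (ZR D X h u s).E = X.E \ (D.RL h u \ NT D (sc s) h u) := by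
  unfold ZR
  rw [Env.freeze_E]
  exact inter_eq_right.2 sdiff_subset

lemma planeK_ZR (hX : PlaneK X) : PlaneK (ZR D X h u s) := planeK_freeze hX _ _

lemma YR_sub_ZR : (YR D X h u s).E ⊆ (ZR D X h u s).E := by
  rw [YR_E, ZR_E]
  exact sdiff_subset_sdiff le_rfl sdiff_subset

/-- **the middle of the room is free** -/
theorem free_ZR (hh : 0 < h) (hF : Free X.E u (4 * D.N * h + 1)) :
    Free (ZR D X h u s).E u (rm D h) := fun _ he => YR_sub_ZR (free_YR (s := s) hh hF he)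

/-- cell of a tile in the frame of the room -/
lemma ct_rt (hh : 0 < h) (e : ℤ × ℤ) : ct (2 * (h : ℤ)) (tt ((syT u).G' e)) =
    ((rt D h u e).1 / (2 * h), (rt D h u e).2 / (2 * h) - D.N + D.τ) := by
  have hn : (0 : ℤ) < 2 * (h : ℤ) := by positivity
  unfold ct rt
  simp only
  rw [Int.add_mul_ediv_left _ _ hn.ne']
  refine Prod.ext rfl ?_
  simp only
  ring

/-- **a notch lies in a plate** -/
lemma Zn.cases {n : ℤ} (hn : 2 ≤ n) {x y : ℤ} (h : Zn D σ n x y) :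
    (D.rg (x / n, y / n - D.N + D.τ) = none ∧ D.AL (y / n) ≤ x / n ∧ x / n < D.AR (y / n)) ∨
      (D.rg (x / n, y / n - D.N + D.τ) ≠ none ∧ (D.NL σ n x y ∨ D.NR σ n x y)) := by
  have hn0 : (0 : ℤ) < n := by omega
  obtain ⟨⟨h0, h1⟩, h2 | h2⟩ := h
  · left
    refine ⟨D.room_cell (Int.ediv_nonneg h0 hn0.le) ?_ h2.1 h2.2, h2⟩
    rw [Int.ediv_lt_iff_lt_mul hn0, mul_comm]; exact h1
  · right
    obtain ⟨q, hq, -⟩ := D.notch_box σ hn h0 h1 h2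
    exact ⟨by rw [hq]; simp, h2⟩

lemma mem_NT' (hh : 0 < h) {e : ℤ × ℤ} : e ∈ NT D σ h u ↔
    (e.1 + e.2) % 2 = 1 ∧ (0 ≤ (rt D h u e).2 ∧ (rt D h u e).2 < 2 * (h : ℤ) * D.HR) ∧
      (D.NL σ (2 * (h : ℤ)) (rt D h u e).1 (rt D h u e).2 ∨
        D.NR σ (2 * (h : ℤ)) (rt D h u e).1 (rt D h u e).2) := by
  have hn : (2 : ℤ) ≤ 2 * (h : ℤ) := by omega
  rw [mem_NT, mem_RL hh, ct_rt (D := D) hh]
  constructor
  · rintro ⟨⟨h1, h2⟩, h3⟩
    rcases h3.cases hn with h4 | h4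
    · exact absurd h4.1 h2
    · exact ⟨h1, h3.1, h4.2⟩
  · rintro ⟨h1, h2, h3⟩
    have h4 : Zn D σ (2 * (h : ℤ)) (rt D h u e).1 (rt D h u e).2 := ⟨h2, Or.inr h3⟩
    obtain ⟨q, hq, -⟩ := D.notch_box σ hn h2.1 h2.2 h3
    exact ⟨⟨h1, by rw [hq]; simp⟩, h4⟩

/-- **the random labels of `ZR` in the square of the ring** -/
theorem mem_ZR_E (hh : 0 < h) (h2 : 2 ≤ 2 * (h : ℤ)) (he : 2 * (h : ℤ) % 2 = 0) {e : ℤ × ℤ}
    (ho : (e.1 + e.2) % 2 = 1)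
    (hs1 : -(D.N : ℤ) ≤ (ct (2 * (h : ℤ)) (tt ((syT u).G' e))).1)
    (hs2 : (ct (2 * (h : ℤ)) (tt ((syT u).G' e))).1 < D.N)
    (hs3 : -(D.N : ℤ) ≤ (ct (2 * (h : ℤ)) (tt ((syT u).G' e))).2)
    (hs4 : (ct (2 * (h : ℤ)) (tt ((syT u).G' e))).2 < D.N) :
    e ∈ (ZR D X h u s).E ↔ e ∈ X.E ∧
      InP ((D.cw (sc s)).win (2 * h) h2 he) false (rt D h u e).1 (rt D h u e).2 := by
  have hn : (0 : ℤ) < 2 * (h : ℤ) := by positivity
  rw [ZR_E, mem_sdiff, mem_sdiff, zn_iff, mem_NT, mem_RL hh]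
  have hroom := D.room_iff hs1 hs2 hs3 hs4
  have hc := ct_rt (D := D) (u := u) hh e
  rw [hc] at hroom ⊢
  simp only at hroom
  have e1 : (rt D h u e).2 / (2 * (h : ℤ)) - D.N + D.τ + D.N - D.τ = (rt D h u e).2 / (2 * h) := by ring
  rw [e1] at hroom
  have e2 : (0 ≤ (rt D h u e).2 / (2 * (h : ℤ)) ∧ (rt D h u e).2 / (2 * (h : ℤ)) < D.HR) ↔
      (0 ≤ (rt D h u e).2 ∧ (rt D h u e).2 < 2 * (h : ℤ) * D.HR) := by
    rw [Int.ediv_lt_iff_lt_mul hn, mul_comm D.HR]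
    refine and_congr ?_ Iff.rfl
    constructor
    · intro h1
      by_contra h3
      have := Int.ediv_neg_of_neg_of_pos (not_le.1 h3) hn
      omega
    · intro h1
      exact Int.ediv_nonneg h1 hn.le
  rw [e2] at hroom
  constructor
  · rintro ⟨h3, h4⟩
    refine ⟨h3, ?_⟩
    by_cases h5 : D.rg ((rt D h u e).1 / (2 * (h : ℤ)), (rt D h u e).2 / (2 * (h : ℤ)) - D.N + D.τ) = none
    · have h6 := hroom.1 h5
      exact ⟨h6.1, Or.inl h6.2⟩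
    · by_contra h6
      exact h4 ⟨⟨ho, h5⟩, fun h7 => h6 h7.2⟩
  · rintro ⟨h3, h4⟩
    refine ⟨h3, ?_⟩
    rintro ⟨h5, h6⟩
    exact h6 ⟨h5, h4⟩

/-- state of the labels of the plates -/
lemma mem_state (hh : 0 < h) {e : ℤ × ℤ} {q : ℕ × ℤ} (ho : (e.1 + e.2) % 2 = 1)
    (hq : D.rg (ct (2 * (h : ℤ)) (tt ((syT u).G' e))) = some q) :
    e ∈ up (D.RL h u) (D.bR h u) s ↔ sc s q = true := by
  have h1 : e ∈ D.RL h u := by
    rw [mem_RL hh, hq]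
    exact ⟨ho, by simp⟩
  have h2 : D.bR h u e = Sum.inr q := bk_some hq
  rw [mem_up, h2]
  unfold sc
  simp only [decide_eq_true_eq]
  exact ⟨fun h3 => h3.2, fun h3 => ⟨h1, h3⟩⟩

end Pool.Agent.H66.W
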