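import Mathlib
import Pool.Agent.H66.W.NotchD

set_option autoImplicit false
open Finset

/-!
# Geometry of the notches (R2)

`notch_geo` : the labels whose tiles are at distance `< 2 h` from a notch lie in the plate of the notch or in no
plate, they are not in the inner square and they are in the big square.
`card_NT` : the number of notches is at most `4 HR`.
-/

namespace Pool.Agent.H66.W

open Pool.Agent.H75.Perc hiding WL CT hh PB
open Pool.Agent.H75.TwoArm hiding BX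
open Pool.Agent.Q1.M4 (Cell lat)
open Pool.Agent.Q1 Pool.Agent.Q1.M6c
open Pool.Agent.H33.Q1
open Pool.Agent.H58.W Pool.Agent.H50.W Pool.Agent.H41.W Pool.Agent.H6.W Pool.Agent.H98.W
open Pool.Agent.H65.G Pool.Agent.H26.W
open Pool.Agent.H5.FM (CW)

variable {D : RG} {X : Env} {h : ℕ} {u : ℤ × ℤ} {s : Finset ((ℤ × ℤ) ⊕ (ℕ × ℤ))} {σ : ℕ × ℤ → Bool}

lemma tt_G' (u e : ℤ × ℤ) :
    tt ((syT u).G' e) = ((tt e).1 - (u.1 + u.2), (tt e).2 - (u.2 - u.1)) := by
  rw [G'T]
  unfold tt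
  refine Prod.ext ?_ ?_ <;> simp only <;> omega

lemma div_near {n a b : ℤ} (hn : 0 < n) (h : |a - b| < n) : |a / n - b / n| ≤ 1 := by
  rw [abs_lt] at h
  have h1 := Int.emod_add_mul_ediv a n
  have h2 := Int.emod_add_mul_ediv b n
  have h3 := Int.emod_nonneg a hn.ne'
  have h4 := Int.emod_lt_of_pos a hn
  have h5 := Int.emod_nonneg b hn.ne'
  have h6 := Int.emod_lt_of_pos b hn
  rw [abs_le]
  constructor <;> nlinarith

/-- a cell next to a plate is not in the inner square -/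
lemma not_sq {c c' : Cell} {q : ℕ × ℤ} (hq : D.rg c = some q) (h1 : |c'.1 - c.1| ≤ 1)
    (h2 : |c'.2 - c.2| ≤ 1) : ¬ Sq ((D.N : ℤ) - D.M) c' := by
  intro hS
  rw [abs_le] at h1 h2
  have h3 : Sq ((D.N : ℤ) - D.M + 1) c := by
    unfold Sq at hS ⊢
    omega
  obtain ⟨s1, s2, s3⟩ := D.rg_some hq
  have h5 : Sq ((D.N : ℤ) - D.M + 1) (rc'^[q.1] c) := by
    rw [← sq_iter (ρ := (D.N : ℤ) - D.M + 1) q.1, RG.rc'_iter]
    exact h3
  obtain ⟨⟨a1, a2⟩, ⟨a3, a4⟩, -⟩ := s2
  have h6 := D.hw_bounds a1 a2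
  unfold Sq at h5
  omega

/-- a cell next to a plate is in the big square -/
lemma sq_two {c c' : Cell} {q : ℕ × ℤ} (hq : D.rg c = some q) (h1 : |c'.1 - c.1| ≤ 1)
    (h2 : |c'.2 - c.2| ≤ 1) : Sq (2 * (D.N : ℤ)) c' := by
  rw [abs_le] at h1 h2
  obtain ⟨s1, s2, s3⟩ := D.rg_some hq
  obtain ⟨⟨a1, a2⟩, ⟨a3, a4⟩, -⟩ := s2
  have h6 := D.hw_bounds a1 a2
  have hM : (0 : ℤ) < D.M := by exact_mod_cast D.hM
  have hN : 2 * (D.M : ℤ) ≤ D.N := by exact_mod_cast D.N_ge
  have h7 : Sq ((D.N : ℤ) + D.M - 1) (rc'^[q.1] c) := by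
    unfold Sq
    omega
  have h8 : Sq ((D.N : ℤ) + D.M - 1) c := by
    have := sq_iter (ρ := (D.N : ℤ) + D.M - 1) q.1 (c := rc'^[q.1] c)
    rw [RG.rc'_iter] at this
    exact this.2 h7
  unfold Sq at h8 ⊢
  omega

/-- **Near a notch.** -/
theorem notch_geo (hh : 1 ≤ h) {t e : ℤ × ℤ} (ht : t ∈ NT D σ h u)
    (hd1 : |(tt e).1 - (tt t).1| < 2 * (h : ℤ)) (hd2 : |(tt e).2 - (tt t).2| < 2 * (h : ℤ)) :
    ∃ q, D.rg (ct (2 * (h : ℤ)) (tt ((syT u).G' t))) = some q ∧
      (D.rg (ct (2 * (h : ℤ)) (tt ((syT u).G' e))) = none ∨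
        D.rg (ct (2 * (h : ℤ)) (tt ((syT u).G' e))) = some q) ∧
      ¬ Sq ((D.N : ℤ) - D.M) (ct (2 * (h : ℤ)) (tt ((syT u).G' e))) ∧
      Sq (2 * (D.N : ℤ)) (ct (2 * (h : ℤ)) (tt ((syT u).G' e))) := by
  have hn2 : (2 : ℤ) ≤ 2 * (h : ℤ) := by omega
  have hn : (0 : ℤ) < 2 * (h : ℤ) := by omega
  obtain ⟨-, h2, h3⟩ := (mem_NT' hh).1 ht
  obtain ⟨q, hq, hbox⟩ := D.notch_box σ hn2 h2.1 h2.2 h3
  have hb := hbox (rt D h u e).1 (rt D h u e).2 (by
      unfold rt
      simp only [tt_G']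
      rw [abs_lt] at hd1 ⊢
      omega) (by
      unfold rt
      simp only [tt_G']
      rw [abs_lt] at hd2 ⊢
      constructor <;> linarith)
  rw [← ct_rt hh] at hb
  rw [← ct_rt hh] at hq
  have c1 : |(ct (2 * (h : ℤ)) (tt ((syT u).G' e))).1 - (ct (2 * (h : ℤ)) (tt ((syT u).G' t))).1| ≤ 1 := by
    unfold ct
    simp only [tt_G']
    refine div_near hn ?_
    rw [abs_lt] at hd1 ⊢
    omega
  have c2 : |(ct (2 * (h : ℤ)) (tt ((syT u).G' e))).2 - (ct (2 * (h : ℤ)) (tt ((syT u).G' t))).2| ≤ 1 := by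
    unfold ct
    simp only [tt_G']
    refine div_near hn ?_
    rw [abs_lt] at hd2 ⊢
    omega
  exact ⟨q, hq, hb, not_sq hq c1 c2, sq_two hq c1 c2⟩

/-- the tile of the room frame determines the label -/
lemma rt_inj {e e' : ℤ × ℤ} (h1 : (e.1 + e.2) % 2 = 1) (h2 : (e'.1 + e'.2) % 2 = 1)
    (h3 : rt D h u e = rt D h u e') : e = e' := by
  unfold rt at h3
  simp only [tt_G', Prod.mk.injEq] at h3
  unfold tt at h3
  simp only at h3
  refine Prod.ext ?_ ?_ <;> omega

/-- **The number of notches.** -/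
theorem card_NT (hh : 1 ≤ h) : (NT D σ h u).card ≤ 4 * D.HR.toNat := by
  classical
  have hn2 : (2 : ℤ) ≤ 2 * (h : ℤ) := by omega
  have hn : (0 : ℤ) < 2 * (h : ℤ) := by omega
  set n : ℤ := 2 * (h : ℤ) with hndef
  set S : Finset (ℤ × ℤ) := ((Ico (0 : ℤ) D.HR) ×ˢ (univ : Finset (Bool × Bool))).image
    (fun a => ((if a.2.1 = true then n * D.AL a.1 - 1 else n * D.AR a.1),
      n * a.1 + (if a.2.2 = true then 0 else n - 1))) with hS
  have hsub : (NT D σ h u).image (rt D h u) ⊆ S := by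
    intro x hx
    obtain ⟨e, he, rfl⟩ := mem_image.1 hx
    obtain ⟨-, ⟨h0, h1⟩, h3⟩ := (mem_NT' hh).1 he
    rw [← hndef] at h1 h3
    set x := (rt D h u e).1
    set y := (rt D h u e).2
    have e1 := Int.emod_add_mul_ediv y n
    have hq0 : 0 ≤ y / n := Int.ediv_nonneg h0 hn.le
    have hq1 : y / n < D.HR := by rw [Int.ediv_lt_iff_lt_mul hn, mul_comm]; exact h1
    rw [hS, mem_image]
    rcases h3 with ⟨g1, g2⟩ | ⟨g1, g2⟩
    · rcases CW.dA_one (C := D.cw σ) (N := n) g1 with ⟨k1, k2, -⟩ | ⟨k1, k2, -⟩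
      · refine ⟨(y / n, true, false), ?_, ?_⟩
        · rw [mem_product, mem_Ico]; exact ⟨⟨hq0, hq1⟩, mem_univ _⟩
        · refine Prod.ext ?_ ?_
          · simp only [if_true]; exact g2.symm
          · simp only [Bool.false_eq_true, if_false]
            rw [← k2, add_comm]
            exact e1
      · refine ⟨(y / n, true, true), ?_, ?_⟩
        · rw [mem_product, mem_Ico]; exact ⟨⟨hq0, hq1⟩, mem_univ _⟩
        · refine Prod.ext ?_ ?_
          · simp only [if_true]; exact g2.symm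
          · simp only [if_true]
            rw [← k2, add_comm]
            exact e1
    · rcases CW.dB_one (C := D.cw σ) (N := n) g1 with ⟨k1, k2, -⟩ | ⟨k1, k2, -⟩
      · refine ⟨(y / n, false, false), ?_, ?_⟩
        · rw [mem_product, mem_Ico]; exact ⟨⟨hq0, hq1⟩, mem_univ _⟩
        · refine Prod.ext ?_ ?_
          · simp only [Bool.false_eq_true, if_false]; exact g2.symm
          · simp only [Bool.false_eq_true, if_false]
            rw [← k2, add_comm]
            exact e1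
      · refine ⟨(y / n, false, true), ?_, ?_⟩
        · rw [mem_product, mem_Ico]; exact ⟨⟨hq0, hq1⟩, mem_univ _⟩
        · refine Prod.ext ?_ ?_
          · simp only [Bool.false_eq_true, if_false]; exact g2.symm
          · simp only [if_true]
            rw [← k2, add_comm]
            exact e1
  have hinj : ((NT D σ h u).image (rt D h u)).card = (NT D σ h u).card := by
    refine card_image_of_injOn fun e he e' he' h4 => ?_
    exact rt_inj ((mem_NT' hh).1 (mem_coe.1 he)).1 ((mem_NT' hh).1 (mem_coe.1 he')).1 h4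
  rw [← hinj]
  refine (card_le_card hsub).trans (card_image_le.trans (le_of_eq ?_))
  rw [card_product, Int.card_Ico, sub_zero]
  have : (univ : Finset (Bool × Bool)).card = 4 := by decide
  rw [this, mul_comm]

end Pool.Agent.H66.W
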