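import Mathlib
import Pool.Agent.H58.W.WG

set_option autoImplicit false
open Finset

/-!
# Unfreezing labels one by one (R2, abstract form)

`D_frz` : the displacement of the environment with frozen labels `P` is the average of `FZ`.
`one_step`, `many_steps` : unfreezing the labels `N ⊆ P` changes the displacement by at most
`4 mm r` times the sum of the probabilities of the four arm events.
-/

namespace Pool.Agent.H66.W

open Pool.Agent.H75.Perc
open Pool.Agent.H75.TwoArm hiding BX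
open Pool.Agent.H75.Four hiding A4
open Pool.Agent.H69.Q1 Pool.Agent.Q1 Pool.Agent.Q1.M6c
open Pool.Agent.Q1.Env (InBx D_congr)
open Pool.Agent.H41.W Pool.Agent.H58.W

variable {X : Env} {p : ℤ × ℤ} {r : ℕ} {u v : ℤ × ℤ}

/-- the displacement with frozen labels is an average of `FZ` -/
lemma D_frz (hu : InQ p r u) (hv : InQ p r v) {P ω1 : Finset (ℤ × ℤ)} (hP : P ⊆ X.E \ BX p r)
    (h1 : ω1 ⊆ P) : (X.freeze (X.E \ P) ω1).D u v =
      EB ((X.E \ BX p r) \ P) id (fun ω2 => FZ X p r u v (ω1 ∪ ω2)) := by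
  rw [EB_inj (b := (id : ℤ × ℤ → ℤ × ℤ)) (fun _ _ _ _ h => h), (X.freeze (X.E \ P) ω1).D_freeze (BX p r) u v]
  have hE : (X.freeze (X.E \ P) ω1).E \ BX p r = (X.E \ BX p r) \ P := by
    rw [Env.freeze_E, inter_eq_right.2 sdiff_subset, sdiff_right_comm]
  rw [hE]
  refine Ec_congr fun ω2 h2 => Eq.symm ?_
  unfold FZ
  rw [D_congr (ζ := 1) (X := (X.freeze (X.E \ P) ω1).freeze (BX p r) ω2)
    (fun z _ => by rw [one_mul]; exact freeze_twice hP h1 h2) (inQ_inB hu) (inQ_inB hv), one_mul]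

/-- **One label.** -/
theorem one_step (hX : PlaneK X) (hF : Free X.E p r) (hu : InQ p r u) (hv : InQ p r v)
    {P ω1 : Finset (ℤ × ℤ)} (hP : P ⊆ X.E \ BX p r) (h1 : ω1 ⊆ P) {t : ℤ × ℤ} (ht : t ∈ P)
    {B : Finset (ℤ × ℤ)} (hB : SC B) (htB : t ∈ B) (hBE : B ⊆ X.E \ BX p r) {η : ℝ}
    (hη : PB ((X.E \ BX p r) \ P) id (fun ω => A4 B {t} (ω1 \ {t} ∪ ω)) ≤ η) :
    ‖(X.freeze (X.E \ P) ω1).D u v - (X.freeze (X.E \ (P \ {t})) (ω1 \ {t})).D u v‖ ≤
      4 * mm r * η := by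
  have hm := mm_nonneg r
  have hP' : P \ {t} ⊆ X.E \ BX p r := sdiff_subset.trans hP
  have h1' : ω1 \ {t} ⊆ P \ {t} := sdiff_subset_sdiff h1 le_rfl
  rw [D_frz hu hv hP h1, D_frz hu hv hP' h1']
  set F : Finset (ℤ × ℤ) → ℂ := fun ω => FZ X p r u v (ω1 \ {t} ∪ ω) with hF'
  have hE : ((X.E \ BX p r) \ (P \ {t})) \ {t} = (X.E \ BX p r) \ P := by
    ext x
    simp only [mem_sdiff, mem_singleton]
    constructor
    · rintro ⟨⟨a1, a2⟩, a3⟩
      exact ⟨a1, fun a4 => a2 ⟨a4, a3⟩⟩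
    · rintro ⟨a1, a2⟩
      exact ⟨⟨a1, fun a3 => a2 a3.1⟩, fun a3 => a2 (a3 ▸ ht)⟩
  have hS : ({t} : Finset (ℤ × ℤ)) ⊆ B := by rw [singleton_subset_iff]; exact htB
  have hω1 : ω1 ⊆ X.E \ BX p r := h1.trans hP
  -- second environment
  have k1 := EB_change_aux (E := (X.E \ BX p r) \ (P \ {t})) (S := {t}) (b := (id : ℤ × ℤ → ℤ × ℤ))
    (F := F) (K := mm r) (A := fun ω => A4 B {t} (ω1 \ {t} ∪ ω))
    (fun ω _ => FZ_norm hX hF hu hv _)
    (fun ω hω hA => by
      have hsub : ω1 \ {t} ∪ ω ⊆ X.E \ BX p r :=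
        union_subset (sdiff_subset.trans hω1) (hω.trans sdiff_subset)
      have e1 : (ω1 \ {t} ∪ ω) \ {t} = ω1 \ {t} ∪ ω \ {t} := by
        rw [union_sdiff_distrib]
        congr 1
        exact sdiff_idem _ _
      rw [hF']
      simp only
      rw [FZ_strand hX hu hv hB hS hBE hsub (by rw [e1]; exact hA), e1])
  rw [hE] at k1
  -- first environment
  have k2 : ‖EB ((X.E \ BX p r) \ P) id (fun ω2 => FZ X p r u v (ω1 ∪ ω2)) -
      EB ((X.E \ BX p r) \ P) id F‖ ≤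
      2 * mm r * PB ((X.E \ BX p r) \ P) id (fun ω => A4 B {t} (ω1 \ {t} ∪ ω)) := by
    rw [← EB_sub]
    refine EB_norm (fun ω _ => ?_) (fun ω hω hA => ?_)
    · refine (norm_sub_le _ _).trans ?_
      have a1 := FZ_norm hX hF hu hv (ω1 ∪ ω)
      have a2 := FZ_norm hX hF hu hv (ω1 \ {t} ∪ ω)
      rw [hF']
      simp only
      linarith
    · have hsub : ω1 ∪ ω ⊆ X.E \ BX p r := union_subset hω1 (hω.trans sdiff_subset)
      have htω : t ∉ ω := fun h => (mem_sdiff.1 (hω h)).2 ht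
      have e1 : (ω1 ∪ ω) \ {t} = ω1 \ {t} ∪ ω := by
        rw [union_sdiff_distrib]
        congr 1
        exact sdiff_eq_self_of_disjoint (disjoint_singleton_right.2 htω)
      rw [FZ_strand hX hu hv hB hS hBE hsub (by rw [e1]; exact hA), e1]
      rw [hF']
      simp only
      rw [sub_self]
  have k3 : PB ((X.E \ BX p r) \ P) id (fun ω => A4 B {t} (ω1 \ {t} ∪ ω)) * (2 * mm r) ≤
      η * (2 * mm r) := mul_le_mul_of_nonneg_right hη (by linarith)
  calc ‖EB ((X.E \ BX p r) \ P) id (fun ω2 => FZ X p r u v (ω1 ∪ ω2)) -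
        EB ((X.E \ BX p r) \ (P \ {t})) id F‖
      = ‖(EB ((X.E \ BX p r) \ P) id (fun ω2 => FZ X p r u v (ω1 ∪ ω2)) -
          EB ((X.E \ BX p r) \ P) id F) -
          (EB ((X.E \ BX p r) \ (P \ {t})) id F - EB ((X.E \ BX p r) \ P) id F)‖ := by
        congr 1; ring
    _ ≤ _ := norm_sub_le _ _
    _ ≤ _ := by linarith

/-- **Many labels.** -/
theorem many_steps (hX : PlaneK X) (hF : Free X.E p r) (hu : InQ p r u) (hv : InQ p r v)
    {P ω1 : Finset (ℤ × ℤ)} (hP : P ⊆ X.E \ BX p r) (h1 : ω1 ⊆ P) {N : Finset (ℤ × ℤ)}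
    (hN : N ⊆ P) (Bt : ℤ × ℤ → Finset (ℤ × ℤ)) (hB : ∀ t ∈ N, SC (Bt t))
    (htB : ∀ t ∈ N, t ∈ Bt t) (hBE : ∀ t ∈ N, Bt t ⊆ X.E \ BX p r) {η : ℝ}
    (hη : ∀ t ∈ N, ∀ T ⊆ N, t ∉ T →
      PB ((X.E \ BX p r) \ (P \ T)) id (fun ω => A4 (Bt t) {t} ((ω1 \ T) \ {t} ∪ ω)) ≤ η) :
    ‖(X.freeze (X.E \ P) ω1).D u v - (X.freeze (X.E \ (P \ N)) (ω1 \ N)).D u v‖ ≤
      4 * mm r * η * N.card := by
  classical
  have key : ∀ T ⊆ N, ‖(X.freeze (X.E \ P) ω1).D u v -
      (X.freeze (X.E \ (P \ T)) (ω1 \ T)).D u v‖ ≤ 4 * mm r * η * T.card := by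
    intro T
    induction T using Finset.induction_on with
    | empty =>
      intro _
      rw [sdiff_empty, sdiff_empty, sub_self, norm_zero, card_empty]
      simp
    | insert t T htT ih =>
      intro hT
      have hT' : T ⊆ N := (subset_insert _ _).trans hT
      have htN : t ∈ N := hT (mem_insert_self _ _)
      have k1 := ih hT'
      have k2 := one_step hX hF hu hv (P := P \ T) (ω1 := ω1 \ T) (sdiff_subset.trans hP)
        (sdiff_subset_sdiff h1 le_rfl) (mem_sdiff.2 ⟨hN htN, htT⟩) (hB t htN) (htB t htN)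
        (hBE t htN) (hη t htN T hT' htT)
      have e1 : ∀ A : Finset (ℤ × ℤ), (A \ T) \ {t} = A \ insert t T := by
        intro A
        ext x
        simp only [mem_sdiff, mem_singleton, mem_insert, not_or]
        tauto
      rw [e1, e1] at k2
      rw [card_insert_of_notMem htT]
      push_cast
      calc _ = ‖((X.freeze (X.E \ P) ω1).D u v - (X.freeze (X.E \ (P \ T)) (ω1 \ T)).D u v) +
            ((X.freeze (X.E \ (P \ T)) (ω1 \ T)).D u v -
              (X.freeze (X.E \ (P \ insert t T)) (ω1 \ insert t T)).D u v)‖ := by congr 1; ring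
        _ ≤ _ := norm_add_le _ _
        _ ≤ _ := by linarith
  exact key N le_rfl

end Pool.Agent.H66.W
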