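import Mathlib
import Pool.Agent.H66.W.NotchS
import Pool.Agent.H66.W.NotchG
import Pool.Agent.H21.W.NBox
import Pool.Agent.H65.Dom.Dec

set_option autoImplicit false
open Finset

/-!
# The notches do not matter in the middle of the room (R2)

`YR_ZR` : the displacements of the environment with frozen plates and of the environment whose notches are
random differ by at most `mm r' ε` in the middle of the room, for all large `h`.
-/

namespace Pool.Agent.H66.W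

open Pool.Agent.H75.Perc hiding WL CT hh PB
open Pool.Agent.H75.TwoArm hiding BX
open Pool.Agent.Q1.M4 (Cell lat)
open Pool.Agent.Q1 Pool.Agent.Q1.M6c
open Pool.Agent.H33.Q1
open Pool.Agent.H58.W Pool.Agent.H50.W Pool.Agent.H41.W Pool.Agent.H6.W Pool.Agent.H98.W
open Pool.Agent.H65.G Pool.Agent.H26.W
open Pool.Agent.H65.Dom (Dec Arm dec_half du_inter_self)
open Pool.Agent.H99.NC (PrP_half)
open Pool.Agent.H21.W (NB mem_NB sc_NB arm_open arm_dual)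

variable {D : RG} {X : Env} {h : ℕ} {u : ℤ × ℤ} {s : Finset ((ℤ × ℤ) ⊕ (ℕ × ℤ))}

/-- decay of arms of both colours, natural labels -/
lemma dec_PB : ∃ δ : ℝ, 0 < δ ∧ δ < 1 ∧ ∀ (F : Finset (ℤ × ℤ)), (∀ e ∈ F, (e.1 + e.2) % 2 = 1) →
    ∀ (z : ℤ × ℤ) (k : ℕ), PB F id (fun ω => Arm z 1 (4 ^ k) ω) ≤ (1 - δ) ^ k ∧
      PB F id (fun ω => Arm z 1 (4 ^ k) (du F ω)) ≤ (1 - δ) ^ k := by
  obtain ⟨δ, h⟩ := dec_half
  refine ⟨δ, (h 0).2.1, (h 0).2.2.1, fun F hF z k => ?_⟩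
  have h1 := (h (4 ^ k * 1)).2.2.2 F hF z 1 le_rfl k le_rfl
  rw [PrP_half, PrP_half, mul_one] at h1
  rw [PB_id, PB_id]
  exact h1

/-- the labels of the plates are off the box in the middle -/
lemma RL_sub (hh : 1 ≤ h) (hbig : Free X.E u (4 * D.N * h + 1)) {p : ℤ × ℤ} {r' : ℕ}
    (hp : |p.1 - u.1| + |p.2 - u.2| + 2 * r' + 1 ≤ ((D.N : ℤ) - D.M) * (2 * h)) :
    D.RL h u ⊆ X.E \ BX p r' := by
  have hn : (0 : ℤ) < 2 * (h : ℤ) := by omega
  intro e he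
  obtain ⟨h1, h2⟩ := (mem_RL hh).1 he
  obtain ⟨q, hq⟩ := Option.ne_none_iff_exists'.1 h2
  rw [mem_sdiff]
  constructor
  · apply hbig
    have := RG.outer hh h1 (sq_two (c' := ct (2 * (h : ℤ)) (tt ((syT u).G' e))) hq (by simp) (by simp))
    unfold BX at this
    exact this
  · intro h3
    exact not_sq (c' := ct (2 * (h : ℤ)) (tt ((syT u).G' e))) hq (by simp) (by simp) (RG.inner hh hp h3)

/-- the box of a notch -/
lemma NB_sub (hh : 2 ≤ h) (hbig : Free X.E u (4 * D.N * h + 1)) {p : ℤ × ℤ} {r' : ℕ}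
    (hp : |p.1 - u.1| + |p.2 - u.2| + 2 * r' + 1 ≤ ((D.N : ℤ) - D.M) * (2 * h)) {σ : ℕ × ℤ → Bool}
    {t : ℤ × ℤ} (ht : t ∈ NT D σ h u) :
    NB t h ⊆ X.E \ BX p r' ∧ ∃ q, D.rg (ct (2 * (h : ℤ)) (tt ((syT u).G' t))) = some q ∧
      ∀ e ∈ NB t h, D.rg (ct (2 * (h : ℤ)) (tt ((syT u).G' e))) = none ∨
        D.rg (ct (2 * (h : ℤ)) (tt ((syT u).G' e))) = some q := by
  have hgeo : ∀ e ∈ NB t h, (e.1 + e.2) % 2 = 1 ∧
      ∃ q, D.rg (ct (2 * (h : ℤ)) (tt ((syT u).G' t))) = some q ∧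
      (D.rg (ct (2 * (h : ℤ)) (tt ((syT u).G' e))) = none ∨
        D.rg (ct (2 * (h : ℤ)) (tt ((syT u).G' e))) = some q) ∧
      ¬ Sq ((D.N : ℤ) - D.M) (ct (2 * (h : ℤ)) (tt ((syT u).G' e))) ∧
      Sq (2 * (D.N : ℤ)) (ct (2 * (h : ℤ)) (tt ((syT u).G' e))) := by
    intro e he
    obtain ⟨h1, h2, h3⟩ := mem_NB.1 he
    refine ⟨h1, notch_geo (by omega) ht ?_ ?_⟩
    · rw [abs_lt]; omega
    · rw [abs_lt]
      have := Int.emod_nonneg ((tt t).1 + (tt t).2) (by norm_num : (2 : ℤ) ≠ 0)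
      have := Int.emod_lt_of_pos ((tt t).1 + (tt t).2) (by norm_num : (0 : ℤ) < 2)
      omega
  refine ⟨fun e he => ?_, ?_⟩
  · obtain ⟨h1, q, -, -, h4, h5⟩ := hgeo e he
    rw [mem_sdiff]
    constructor
    · apply hbig
      have := RG.outer (by omega) h1 h5
      unfold BX at this
      exact this
    · intro h3
      exact h4 (RG.inner (by omega) hp h3)
  · obtain ⟨q, hq, -⟩ := notch_geo (e := t) (by omega : 1 ≤ h) ht (by simp; omega) (by simp; omega)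
    refine ⟨q, hq, fun e he => ?_⟩
    obtain ⟨-, q', hq', h3, -⟩ := hgeo e he
    rw [hq] at hq'
    cases hq'
    exact h3

/-- **The four arm event at a notch.** -/
theorem notch_arm {δ : ℝ} (hδ : ∀ (F : Finset (ℤ × ℤ)), (∀ e ∈ F, (e.1 + e.2) % 2 = 1) →
    ∀ (z : ℤ × ℤ) (k : ℕ), PB F id (fun ω => Arm z 1 (4 ^ k) ω) ≤ (1 - δ) ^ k ∧
      PB F id (fun ω => Arm z 1 (4 ^ k) (du F ω)) ≤ (1 - δ) ^ k) {k : ℕ}
    (hh : 2 ≤ h) (hk : 2 * 4 ^ k + 2 ≤ h) (hbig : Free X.E u (4 * D.N * h + 1)) {p : ℤ × ℤ} {r' : ℕ}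
    (hp : |p.1 - u.1| + |p.2 - u.2| + 2 * r' + 1 ≤ ((D.N : ℤ) - D.M) * (2 * h))
    {t : ℤ × ℤ} (ht : t ∈ NT D (sc s) h u) {T : Finset (ℤ × ℤ)} :
    PB ((X.E \ BX p r') \ (D.RL h u \ T)) id
      (fun ω => A4 (NB t h) {t} ((up (D.RL h u) (D.bR h u) s \ T) \ {t} ∪ ω)) ≤ (1 - δ) ^ k := by
  classical
  obtain ⟨hsub, q, hq, hpl⟩ := NB_sub hh hbig hp ht
  have hto : (t.1 + t.2) % 2 = 1 := ((mem_NT' (by omega)).1 ht).1
  have hK : (1 : ℤ) ≤ h := by omega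
  have hR : 2 * (4 : ℤ) ^ k + 2 ≤ h := by exact_mod_cast hk
  set E2 := (X.E \ BX p r') \ (D.RL h u \ T) with hE2
  set F := E2 ∩ NB t h with hFdef
  have hFE : F ⊆ E2 := inter_subset_left
  have hFo : ∀ e ∈ F, (e.1 + e.2) % 2 = 1 := fun e he => (mem_NB.1 (mem_inter.1 he).2).1
  -- labels of the plate
  have hst : ∀ e ∈ NB t h, e ∈ D.RL h u → (e ∈ up (D.RL h u) (D.bR h u) s ↔ sc s q = true) := by
    intro e he heR
    have ho := (mem_NB.1 he).1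
    refine mem_state (by omega) ho ?_
    rcases hpl e he with h1 | h1
    · exact absurd h1 ((mem_RL (by omega)).1 heR).2
    · exact h1
  rcases Bool.eq_false_or_eq_true (sc s q) with hc | hc
  · -- open plate, dual arm
    have h1 : PB E2 id (fun ω => A4 (NB t h) {t} ((up (D.RL h u) (D.bR h u) s \ T) \ {t} ∪ ω)) ≤
        PB E2 id (fun ω => Arm (t.1 / 2, t.2 / 2) 1 (4 ^ k) (du F (ω ∩ F))) := by
      refine PB_mono fun ω _ hA => ?_
      refine (arm_dual hto hK hR hA).mono ?_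
      intro x hx
      unfold du at hx ⊢
      rw [mem_map] at hx ⊢
      obtain ⟨l, hl, rfl⟩ := hx
      refine ⟨l, ?_, rfl⟩
      simp only [mem_sdiff, mem_union, mem_inter, mem_singleton, not_or, not_and] at hl ⊢
      obtain ⟨g1, g2, g3⟩ := hl
      have g4 : l ∈ E2 := by
        rw [hE2, mem_sdiff]
        refine ⟨hsub g1, fun g5 => ?_⟩
        obtain ⟨g6, g7⟩ := mem_sdiff.1 g5
        exact g2 (Or.inl ⟨⟨(hst l g1 g6).2 hc, g7⟩, g3⟩) g1
      exact ⟨mem_inter.2 ⟨g4, g1⟩, fun g5 => absurd g1 (g2 (Or.inr g5))⟩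
    refine h1.trans ?_
    rw [PB_restrict (A := fun κ => Arm (t.1 / 2, t.2 / 2) 1 (4 ^ k) (du F κ)) hFE]
    exact (hδ F hFo _ k).2
  · -- closed plate, open arm
    have h1 : PB E2 id (fun ω => A4 (NB t h) {t} ((up (D.RL h u) (D.bR h u) s \ T) \ {t} ∪ ω)) ≤
        PB E2 id (fun ω => Arm (t.1 / 2, t.2 / 2) 1 (4 ^ k) (ω ∩ F)) := by
      refine PB_mono fun ω hω hA => ?_
      refine (arm_open hto hR hA).mono ?_
      intro l hl
      simp only [mem_sdiff, mem_union, mem_inter, mem_singleton] at hl ⊢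
      obtain ⟨⟨g1, g2⟩, g3⟩ := hl
      rcases g1 with ⟨⟨g4, -⟩, -⟩ | g4
      · have g5 : l ∈ D.RL h u := up_subset _ _ _ g4
        have := (hst l g2 g5).1 g4
        rw [hc] at this
        exact absurd this (by simp)
      · exact ⟨g4, mem_inter.2 ⟨hω g4, g2⟩⟩
    refine h1.trans ?_
    rw [PB_restrict (A := fun κ => Arm (t.1 / 2, t.2 / 2) 1 (4 ^ k) κ) hFE]
    exact (hδ F hFo _ k).1

/-- **The notches do not matter.** -/
theorem YR_ZR (D : RG) (ε : ℝ) (hε : 0 < ε) : ∃ h0 : ℕ, ∀ h : ℕ, h0 ≤ h →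
    ∀ (s : Finset ((ℤ × ℤ) ⊕ (ℕ × ℤ))) (X : Env), PlaneK X → ∀ (u p : ℤ × ℤ) (r' : ℕ),
      Free X.E u (4 * D.N * h + 1) →
      |p.1 - u.1| + |p.2 - u.2| + 2 * r' + 1 ≤ ((D.N : ℤ) - D.M) * (2 * h) →
      ∀ u' v' : ℤ × ℤ, InQ p r' u' → InQ p r' v' →
        ‖(YR D X h u s).D u' v' - (ZR D X h u s).D u' v'‖ ≤ mm r' * ε := by
  obtain ⟨δ, hδ0, hδ1, hδ⟩ := dec_PB
  obtain ⟨k, hk⟩ : ∃ k : ℕ, 4 * (1 - δ) ^ k * ((4 * D.HR.toNat : ℕ) : ℝ) ≤ ε := by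
    have h1 : Filter.Tendsto (fun k : ℕ => 4 * (1 - δ) ^ k * ((4 * D.HR.toNat : ℕ) : ℝ)) Filter.atTop
        (nhds (4 * 0 * ((4 * D.HR.toNat : ℕ) : ℝ))) :=
      ((tendsto_pow_atTop_nhds_zero_of_lt_one (by linarith) (by linarith)).const_mul 4).mul_const _
    rw [mul_zero, zero_mul] at h1
    exact ((h1.eventually_lt_const hε).exists).imp fun k hk => hk.le
  refine ⟨2 * 4 ^ k + 2, fun h hh s X hX u p r' hbig hp u' v' hu hv => ?_⟩
  have h4k : 0 < 4 ^ k := by positivity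
  have hh2 : 2 ≤ h := by omega
  have hFp : Free X.E p r' := by
    refine hbig.mono ?_ ?_
    all_goals
      have a1 := abs_nonneg (p.2 - u.2)
      have a2 := abs_nonneg (p.1 - u.1)
      have e2 : 4 * (D.N : ℤ) * h = 2 * (D.N * (2 * h)) := by ring
      have e3 : ((D.N : ℤ) - D.M) * (2 * h) ≤ D.N * (2 * h) :=
        mul_le_mul_of_nonneg_right (by omega) (by positivity)
      have e4 : (0 : ℤ) ≤ D.N * (2 * h) := by positivity
      rw [e2]; omega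
  have hN : NT D (sc s) h u ⊆ D.RL h u := fun e he => (mem_NT.1 he).1
  have hm := mm_nonneg r'
  have hδk : 0 ≤ (1 - δ) ^ k := pow_nonneg (by linarith) _
  have key := many_steps (ω1 := up (D.RL h u) (D.bR h u) s) hX hFp hu hv (RL_sub (by omega) hbig hp)
    (up_subset _ _ _) hN (fun t => NB t h) (fun t _ => sc_NB _ _)
    (fun t ht => by
      rw [mem_NB]
      refine ⟨((mem_NT' (by omega)).1 ht).1, by omega, ?_⟩
      have := Int.emod_nonneg ((tt t).1 + (tt t).2) (by norm_num : (2 : ℤ) ≠ 0)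
      omega)
    (fun t ht => (NB_sub hh2 hbig hp ht).1) (η := (1 - δ) ^ k)
    (fun t ht T _ _ => notch_arm hδ hh2 hh hbig hp ht)
  refine key.trans ?_
  have hc : ((NT D (sc s) h u).card : ℝ) ≤ ((4 * D.HR.toNat : ℕ) : ℝ) := by
    exact_mod_cast card_NT (D := D) (by omega)
  calc 4 * mm r' * (1 - δ) ^ k * ((NT D (sc s) h u).card : ℝ)
      ≤ 4 * mm r' * (1 - δ) ^ k * ((4 * D.HR.toNat : ℕ) : ℝ) :=
        mul_le_mul_of_nonneg_left hc (by positivity)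
    _ = mm r' * (4 * (1 - δ) ^ k * ((4 * D.HR.toNat : ℕ) : ℝ)) := by ring
    _ ≤ _ := mul_le_mul_of_nonneg_left hk hm

end Pool.Agent.H66.W
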