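import Mathlib
import Pool.Agent.H66.W.Notch

set_option autoImplicit false
open Finset

/-! # The notches do not matter, scaled form (R2) -/

namespace Pool.Agent.H66.W

open Pool.Agent.Q1 Pool.Agent.Q1.M6c
open Pool.Agent.H65.G Pool.Agent.H26.W

/-- **The notches do not matter**, in the form of (R7). -/
theorem YR_ZR_pow (D : RG) (ε : ℝ) (hε : 0 < ε) : ∃ h0 : ℕ, ∀ h : ℕ, h0 ≤ h →
    ∀ (s : Finset ((ℤ × ℤ) ⊕ (ℕ × ℤ))) (X : Env), PlaneK X → ∀ u : ℤ × ℤ,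
      Free X.E u (4 * D.N * h + 1) → ∀ v w : ℤ × ℤ,
      20 * |v.1 - u.1| ≤ (D.N : ℤ) * h → 20 * |v.2 - u.2| ≤ (D.N : ℤ) * h →
      20 * |w.1 - u.1| ≤ (D.N : ℤ) * h → 20 * |w.2 - u.2| ≤ (D.N : ℤ) * h →
        ‖(YR D X h u s).D v w - (ZR D X h u s).D v w‖ ≤ ε * (2 * (h : ℝ)) ^ (2 / 3 : ℝ) := by
  obtain ⟨C, hC, hm⟩ := mm_pow
  have hN0 : 0 < D.N := by have := D.N_ge; have := D.hM; omega
  have hN : (0 : ℝ) < (D.N : ℝ) ^ (2 / 3 : ℝ) := Real.rpow_pos_of_pos (by exact_mod_cast hN0) _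
  obtain ⟨h0, hh0⟩ := YR_ZR D (ε / (C * (D.N : ℝ) ^ (2 / 3 : ℝ))) (by positivity)
  refine ⟨max h0 2, fun h hh s X hX u hbig v w h1 h2 h3 h4 => ?_⟩
  have ha : h0 ≤ h := (le_max_left _ _).trans hh
  have hb : 2 ≤ h := (le_max_right _ _).trans hh
  have hM4 : 4 ≤ D.N * h := by
    have h5 : 2 ≤ D.N := by have := D.N_ge; have := D.hM; omega
    nlinarith
  have hr : ((rm D h : ℕ) : ℤ) = ((D.N : ℤ) * h) / 2 - 1 := by
    unfold rm
    have h5 : 1 ≤ D.N * h / 2 := by omega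
    push_cast [Nat.cast_sub h5]
    rfl
  have hM4' : (4 : ℤ) ≤ (D.N : ℤ) * h := by exact_mod_cast hM4
  have hv : InQ u (rm D h) v := by
    constructor <;> unfold Qt <;> omega
  have hw : InQ u (rm D h) w := by
    constructor <;> unfold Qt <;> omega
  have key := hh0 h ha s X hX u u (rm D h) hbig (by
    rw [sub_self, sub_self, abs_zero]
    have := rm_le D (h := h) (by omega)
    omega) v w hv hw
  refine key.trans ?_
  have h6 : mm (rm D h) ≤ C * ((D.N : ℝ) ^ (2 / 3 : ℝ) * (2 * (h : ℝ)) ^ (2 / 3 : ℝ)) := by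
    refine (hm _).trans (mul_le_mul_of_nonneg_left ?_ hC.le)
    rw [← Real.mul_rpow (by positivity) (by positivity)]
    refine Real.rpow_le_rpow (by positivity) ?_ (by norm_num)
    have h7 : rm D h ≤ D.N * (2 * h) := by
      unfold rm
      have : D.N * (2 * h) = 2 * (D.N * h) := by ring
      omega
    calc ((rm D h : ℕ) : ℝ) ≤ ((D.N * (2 * h) : ℕ) : ℝ) := by exact_mod_cast h7
      _ = _ := by push_cast; ring
  calc mm (rm D h) * (ε / (C * (D.N : ℝ) ^ (2 / 3 : ℝ)))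
      ≤ C * ((D.N : ℝ) ^ (2 / 3 : ℝ) * (2 * (h : ℝ)) ^ (2 / 3 : ℝ)) *
          (ε / (C * (D.N : ℝ) ^ (2 / 3 : ℝ))) := mul_le_mul_of_nonneg_right h6 (by positivity)
    _ = _ := by field_simp

end Pool.Agent.H66.W
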