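import Mathlib
import Pool.Agent.H66.W.NotchD

set_option autoImplicit false
open Finset

/-!
# The labels of the window in `ZR` (R2)

`csR D h u` : the translation from the labels of the window to the labels of the plane. `win_sub_ZR` : the
random tiles of the window are natural labels of `ZR`. `not_win_ZR` : the other labels of the square of the
ring are frozen in `ZR`, their state is the colour of their plate.
-/

namespace Pool.Agent.H66.W

open Pool.Agent.H75.Perc hiding WL CT hh PB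
open Pool.Agent.H75.TwoArm hiding BX
open Pool.Agent.Q1.M4 (Cell lat)
open Pool.Agent.Q1 Pool.Agent.Q1.M6c
open Pool.Agent.H33.Q1
open Pool.Agent.H58.W Pool.Agent.H50.W Pool.Agent.H41.W Pool.Agent.H6.W Pool.Agent.H98.W
open Pool.Agent.H65.G Pool.Agent.H26.W
open Pool.Agent.H74.Win (InP EN mem_EN)

variable (D : RG)

/-- translation of the labels from the window frame -/
def csR (h : ℕ) (u : ℤ × ℤ) : ℤ × ℤ :=
  (2 * u.1 + 2 * (h : ℤ) * ((D.N : ℤ) - D.τ), 2 * u.2 - 2 * (h : ℤ) * ((D.N : ℤ) - D.τ))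

/-- tile translation -/
def tR (h : ℕ) (u : ℤ × ℤ) : ℤ × ℤ :=
  (u.1 + u.2, u.2 - u.1 - 2 * (h : ℤ) * ((D.N : ℤ) - D.τ))

variable {D} {X : Env} {h : ℕ} {u : ℤ × ℤ} {s : Finset ((ℤ × ℤ) ⊕ (ℕ × ℤ))} {σ : ℕ × ℤ → Bool}

lemma csR_tR : csR D h u = ((tR D h u).1 - (tR D h u).2, (tR D h u).1 + (tR D h u).2) := by
  unfold csR tR
  refine Prod.ext ?_ ?_ <;> simp only <;> ring

lemma lt_add_tR (p : ℤ × ℤ) : lt p + csR D h u = lt (p + tR D h u) := by
  rw [csR_tR]
  unfold lt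
  refine Prod.ext ?_ ?_ <;> simp only [Prod.fst_add, Prod.snd_add] <;> ring

lemma csR_even (h : ℕ) (u : ℤ × ℤ) : ((csR D h u).1 + (csR D h u).2) % 2 = 0 := by
  unfold csR
  simp only
  omega

/-- the tile of the translated label -/
lemma rt_lt (p : ℤ × ℤ) : rt D h u (lt p + csR D h u) = p := by
  rw [lt_add_tR]
  unfold rt
  rw [Pool.Agent.H65.G.G'T]
  unfold tt lt tR
  simp only [Prod.fst_add, Prod.snd_add]
  set k : ℤ := 2 * (h : ℤ) * ((D.N : ℤ) - D.τ)
  refine Prod.ext ?_ ?_ <;> simp only <;> omega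

lemma odd_lt_csR (p : ℤ × ℤ) : ((lt p + csR D h u).1 + (lt p + csR D h u).2) % 2 = 1 := by
  rw [lt_add_tR]
  exact lt_odd _

lemma lt_rt {e : ℤ × ℤ} (he : (e.1 + e.2) % 2 = 1) : lt (rt D h u e) + csR D h u = e := by
  rw [lt_add_tR]
  unfold rt
  rw [Pool.Agent.H65.G.G'T]
  unfold tt lt tR
  simp only [Prod.fst_add, Prod.snd_add]
  set k : ℤ := 2 * (h : ℤ) * ((D.N : ℤ) - D.τ)
  refine Prod.ext ?_ ?_ <;> simp only <;> omega

/-- the cell of a random tile of the window is in the square -/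
lemma Zn.sq {n : ℤ} (hn : 2 ≤ n) {x y : ℤ} (hz : Zn D σ n x y) :
    (-(D.N : ℤ) ≤ x / n ∧ x / n < D.N) ∧ (-(D.N : ℤ) ≤ y / n - D.N + D.τ ∧ y / n - D.N + D.τ < D.N) := by
  have hn0 : (0 : ℤ) < n := by omega
  obtain ⟨⟨h0, h1⟩, h2⟩ := hz
  have q0 : 0 ≤ y / n := Int.ediv_nonneg h0 hn0.le
  have q1 : y / n < D.HR := by rw [Int.ediv_lt_iff_lt_mul hn0, mul_comm]; exact h1
  have hτ := D.τZ
  have hHR : D.HR = 2 * D.N - 2 * D.τ := rfl
  have b1 := (D.AL_bounds q0 q1).1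
  have b2 := (D.AL_bounds (Y := D.HR - 1 - y / n) (by omega) (by omega)).1
  have b3 : D.AR (y / n) = -D.AL (D.HR - 1 - y / n) := rfl
  have b4 := (D.AL_bounds q0 q1).2
  have b5 := (D.AL_bounds (Y := D.HR - 1 - y / n) (by omega) (by omega)).2
  have hM := D.MZ
  refine ⟨?_, by omega, by omega⟩
  rcases h2 with h2 | ⟨-, h2⟩ | ⟨-, h2⟩
  · omega
  · have : x / n = D.AL (y / n) - 1 :=
      RG.div_eq' hn0 (by rw [mul_sub, mul_one]; omega) (by rw [mul_sub, mul_one]; omega)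
    omega
  · have : x / n = D.AR (y / n) := RG.div_eq' hn0 (by omega) (by omega)
    omega

/-- **the random tiles of the window are natural labels of `ZR`** -/
theorem win_sub_ZR (hh : 1 ≤ h) (h2 : 2 ≤ 2 * (h : ℤ)) (he : 2 * (h : ℤ) % 2 = 0)
    (hbig : Free X.E u (4 * D.N * h + 1)) {l : ℤ × ℤ}
    (hl : l ∈ EN ((D.cw (sc s)).win (2 * h) h2 he) false) : l + csR D h u ∈ (ZR D X h u s).E := by
  classical
  obtain ⟨p, rfl⟩ : ∃ p, lt p = l := by
    have ho : (l.1 + l.2) % 2 = 1 := by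
      unfold EN Pool.Agent.H74.Win.TB at hl
      obtain ⟨p, -, rfl⟩ := mem_image.1 hl
      exact lt_odd _
    exact ⟨tt l, lt_tt ho⟩
  have hp : InP ((D.cw (sc s)).win (2 * h) h2 he) false p.1 p.2 := mem_EN.1 hl
  have hz := (zn_iff D (sc s) h2 he).1 hp
  have hsq := hz.sq h2
  have ho := odd_lt_csR (D := D) (h := h) (u := u) p
  have hrt := rt_lt (D := D) (h := h) (u := u) p
  have hc := ct_rt (D := D) (u := u) (by omega : 0 < h) (lt p + csR D h u)
  rw [hrt] at hc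
  have hN : (0 : ℤ) ≤ D.N := by positivity
  rw [mem_ZR_E (by omega) h2 he ho (by rw [hc]; exact hsq.1.1) (by rw [hc]; exact hsq.1.2)
    (by rw [hc]; exact hsq.2.1) (by rw [hc]; exact hsq.2.2), hrt]
  refine ⟨hbig ?_, hp⟩
  have := RG.outer (N := D.N) (by omega : 0 < h) (u := u) ho (by
    rw [hc]
    unfold Sq
    simp only
    omega)
  unfold BX at this
  exact this

/-- **the other labels of the square are frozen in `ZR`** and belong to a plate with its colour -/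
theorem not_win_ZR (hh : 1 ≤ h) (h2 : 2 ≤ 2 * (h : ℤ)) (he : 2 * (h : ℤ) % 2 = 0)
    (hbig : Free X.E u (4 * D.N * h + 1)) {p : ℤ × ℤ}
    (hsq : (-(D.N : ℤ) ≤ p.1 / (2 * h) ∧ p.1 / (2 * h) < D.N) ∧
      (-(D.N : ℤ) ≤ p.2 / (2 * h) - D.N + D.τ ∧ p.2 / (2 * h) - D.N + D.τ < D.N))
    (hp : ¬ InP ((D.cw (sc s)).win (2 * h) h2 he) false p.1 p.2) :
    lt p + csR D h u ∈ X.E ∧ lt p + csR D h u ∈ D.RL h u \ NT D (sc s) h u ∧
      ∃ q, D.rg (p.1 / (2 * h), p.2 / (2 * h) - D.N + D.τ) = some q ∧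
        (lt p + csR D h u ∈ up (D.RL h u) (D.bR h u) s ↔ sc s q = true) := by
  have ho := odd_lt_csR (D := D) (h := h) (u := u) p
  have hrt := rt_lt (D := D) (h := h) (u := u) p
  have hc := ct_rt (D := D) (u := u) (by omega : 0 < h) (lt p + csR D h u)
  rw [hrt] at hc
  have hX : lt p + csR D h u ∈ X.E := by
    apply hbig
    have := RG.outer (N := D.N) (by omega : 0 < h) (u := u) ho (by
      rw [hc]
      unfold Sq
      simp only
      omega)
    unfold BX at this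
    exact this
  have hE : lt p + csR D h u ∉ (ZR D X h u s).E := by
    rw [mem_ZR_E (by omega) h2 he ho (by rw [hc]; exact hsq.1.1) (by rw [hc]; exact hsq.1.2)
      (by rw [hc]; exact hsq.2.1) (by rw [hc]; exact hsq.2.2), hrt]
    exact fun h3 => hp h3.2
  rw [ZR_E] at hE
  have hR : lt p + csR D h u ∈ D.RL h u \ NT D (sc s) h u := by
    by_contra h3
    exact hE (mem_sdiff.2 ⟨hX, h3⟩)
  obtain ⟨-, h4⟩ := (mem_RL (by omega)).1 (mem_sdiff.1 hR).1
  obtain ⟨q, hq⟩ := Option.ne_none_iff_exists'.1 h4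
  refine ⟨hX, hR, q, by rw [← hc]; exact hq, mem_state (by omega) ho hq⟩

end Pool.Agent.H66.W
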