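import Mathlib
import Pool.Agent.H66.W.Top

set_option autoImplicit false
open Set Filter Topology

/-! **From the local translation invariance of the limits to `HolDob`**, main theorems. -/

namespace Pool.Agent.H66.W

open Pool.Agent.H75.Perc hiding WL CT hh ph
open Pool.Agent.H75.TwoArm Pool.Agent.H99.NC Pool.Agent.Q1.M4 Pool.Agent.Q1.Dob
open Pool.Agent.Q1 (Env ph AP)
open Pool.Agent.Q1.M5 (App)
open Pool.Agent.Q1.M6f.Glue (TI OscO JJ differentiableOn_of_TI)
open Pool.Agent.H87.FM (HD)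
open Pool.Agent.H52.Q1 (small_ev Small)

variable {P : PType} {x y : ℤ → ℝ} {R : ℕ → ℝ} {X Y : ℕ → ℤ → ℤ} {H : ℕ → ℤ × ℤ → ℂ}

lemma CTI.congr {H H' : ℕ → ℤ × ℤ → ℂ} (h : CTI P x y R H)
    (he : ∀ j v w, H' j v - H' j w = H j v - H j w) : CTI P x y R H' := by
  intro U hU z hz
  obtain ⟨r, hr, h⟩ := h U hU z hz
  refine ⟨r, hr, fun ε hε => ?_⟩
  obtain ⟨G, hG, hcl⟩ := h ε hε
  refine ⟨G, hG, ?_⟩
  filter_upwards [hcl] with j hj v w hv hw
  rw [he]
  exact hj v w hv hw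

/-- **`CRA` from the translation invariance and the corner bound.** -/
theorem CRA_of_CTI_corner (hx : StrictMono x) (hy : StrictMono y) (hA : App x y R X Y)
    {S : ℕ → ℤ × ℤ → ℂ}
    (hold : ∃ C > 0, ∃ δ > 0, ∀ᶠ j in atTop, ∀ v v', inV P.Q (X j) (Y j) v →
      inV P.Q (X j) (Y j) v' → ‖lat v - lat v'‖ ≤ δ * R j →
      ‖S j v - S j v'‖ ≤ C * (‖lat v - lat v'‖ / R j) ^ (2 / 3 : ℝ))
    {n : ℕ} {β : ℝ} (hβ : 1 < β)
    (hcor : ∃ C > 0, ∃ r > 0, ∀ ρ > 0, ρ ≤ r → ∀ᶠ j in atTop, ∀ v, inV P.Q (X j) (Y j) v →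
      ‖lat v - lat (lpt (X j) (Y j) (P.vert n))‖ ≤ ρ * R j →
      ‖S j v - S j (lpt (X j) (Y j) (P.vert n))‖ ≤ C * ρ ^ β)
    (hcr : CTI P x y R S) : CRA P x y R S := by
  intro U hU z hz
  set H : ℕ → ℤ × ℤ → ℂ := fun j v => S j v - S j (lpt (X j) (Y j) (P.vert 0)) with hH
  have hdiff : ∀ j v w, H j v - H j w = S j v - S j w := fun j v w => by
    simp only [hH]; ring
  have D : HD P x y R X Y H := by
    refine ⟨hA.app, fun j => by simp only [hH]; rw [sub_self], ?_⟩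
    obtain ⟨C, hC, δ, hδ, hold⟩ := hold
    refine ⟨C, hC, δ, hδ, ?_⟩
    filter_upwards [hold] with j hj v v' hv hv' hvv
    rw [hdiff]
    exact hj v v' hv hv' hvv
  have h0 : ∀ z : ℂ, ∃ a, z ∈ Reg P.Q x y → IsLim P R X Y H U z a := by
    intro z
    by_cases hz : z ∈ Reg P.Q x y
    · obtain ⟨a, ha⟩ := D.exists_isLim hx hy U hU hz
      exact ⟨a, fun _ => ha⟩
    · exact ⟨0, fun h => absurd h hz⟩
  choose h hh using h0
  obtain ⟨Ch, hCh, rh, hrh, hhold⟩ := D.hold_lim hx hy hU hh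
  have hcont : ContinuousOn h (Om P.Q x y) :=
    (continuousOn_of_hold hrh hhold).mono (Om_subset _ _ _)
  have hTI : TI (Om P.Q x y) h :=
    ti_of_CTI hx hy hA.app (hcr.congr hdiff) U hU hcont hh
  have hRU : Tendsto R U atTop := hA.app.R_top.mono_left hU
  have hRpos : ∀ᶠ j in (U : Filter ℕ), 0 < R j := hRU.eventually_gt_atTop 0
  -- the corner
  have hOsc : OscO (Om P.Q x y) h := by
    have hcell := (P.isSide n).1
    have hcase : ((P.vert n).1 = (P.side n).1.1 ∨ (P.vert n).1 = (P.side n).1.1 + 1) ∧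
        ((P.vert n).2 = (P.side n).1.2 ∨ (P.vert n).2 = (P.side n).1.2 + 1) := by
      unfold PType.vert tail
      split_ifs <;> simp
    obtain ⟨C, hC, r, hr, hcor⟩ := hcor
    have hp : Appr P R X Y U (pt x y (P.vert n)) (fun j => lpt (X j) (Y j) (P.vert n)) := by
      refine ⟨hU ?_, ?_⟩
      · filter_upwards [hA.app.tail_mem hx hy (P.side n)] with j hj
        exact ⟨_, hcell, hj⟩
      · exact (lat_div_tendsto (hA.app.X_lim _) (hA.app.Y_lim _)).mono_left hU
    have hpR : pt x y (P.vert n) ∈ Reg P.Q x y := by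
      refine ⟨_, hcell, ?_⟩
      have X1 : x (P.side n).1.1 < x ((P.side n).1.1 + 1) := hx (by omega)
      have Y1 : y (P.side n).1.2 < y ((P.side n).1.2 + 1) := hy (by omega)
      unfold rect pt
      obtain ⟨k1, k2⟩ := hcase
      refine ⟨⟨?_, ?_⟩, ?_, ?_⟩ <;> simp only
      · rcases k1 with k | k <;> rw [k]; exact X1.le
      · rcases k1 with k | k <;> rw [k]; exact X1.le
      · rcases k2 with k | k <;> rw [k]; exact Y1.le
      · rcases k2 with k | k <;> rw [k]; exact Y1.le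
    have hone : ∀ δ : ℝ, 0 < δ → 2 * δ ≤ r → ∀ z ∈ Om P.Q x y, ‖z - pt x y (P.vert n)‖ ≤ δ →
        ‖h z - h (pt x y (P.vert n))‖ ≤ C * (2 * δ) ^ β := by
      intro δ hδ hδr z hz hzp
      obtain ⟨v, hv⟩ := exists_appr (P := P) hx hy hA.app hU (Om_subset _ _ _ hz)
      have hl := ((hh z (Om_subset _ _ _ hz) v hv).sub (hh _ hpR _ hp)).norm
      refine le_of_tendsto hl ?_
      have h1 := (hv.2.sub hp.2).norm
      filter_upwards [hU (hcor (2 * δ) (by positivity) hδr), hv.1, hRpos,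
        h1.eventually_le_const (lt_of_le_of_lt hzp (by linarith : δ < 2 * δ))] with j h2 h3 h4 h5
      rw [hdiff]
      refine h2 _ h3 ?_
      rw [dist_div h4, div_le_iff₀ h4] at h5
      exact h5
    refine oscO_corner' hx hy (c := (P.side n).1) (p := P.vert n)
      (fun z h1 h2 h3 h4 => mem_Om_of_inner hx hy hcell h1 h2 h3 h4) hcase.1 hcase.2
      (C := 2 * C * 2 ^ β) (β := β) (δ0 := r / 2) hβ (by positivity) ?_
    intro δ hδ hδr z hz z' hz' h1 h2
    have k1 := hone δ hδ (by linarith) z hz h1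
    have k2 := hone δ hδ (by linarith) z' hz' h2
    have e : h z - h z' = (h z - h (pt x y (P.vert n))) - (h z' - h (pt x y (P.vert n))) := by ring
    rw [e]
    refine (norm_sub_le _ _).trans ((add_le_add k1 k2).trans (le_of_eq ?_))
    rw [Real.mul_rpow (by norm_num) hδ.le]
    ring
  have hdif : DifferentiableOn ℂ h (Om P.Q x y) :=
    differentiableOn_of_TI (isOpen_Om _ _ _) hcont hTI hOsc
  -- conclusion
  obtain ⟨r1, hr1, hball⟩ := Metric.isOpen_iff.1 (isOpen_Om P.Q x y) z hz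
  obtain ⟨r2, hr2, hnear⟩ := near_inV hx hy hA.app hz
  obtain ⟨C, hC, δ, hδ, hold⟩ := hold
  have hr : 0 < min (min r1 r2) (δ / 2) := lt_min (lt_min hr1 hr2) (by positivity)
  refine ⟨min (min r1 r2) (δ / 2), hr, fun ε hε => ⟨S, ⟨⟨C, hC, ?_⟩, ?_⟩, ?_⟩⟩
  · filter_upwards [hU hold, hU hnear, hRpos] with j h1 h2 h3 v w hv hw
    rw [lt_min_iff, lt_min_iff] at hv hw
    refine h1 v w (h2 v hv.1.2) (h2 w hw.1.2) ?_
    rw [← div_le_iff₀ h3, ← dist_div h3]
    have e : lat v / (R j : ℂ) - lat w / (R j : ℂ) =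
      (lat v / (R j : ℂ) - z) - (lat w / (R j : ℂ) - z) := by ring
    rw [e]
    refine (norm_sub_le _ _).trans ?_
    linarith [hv.2, hw.2]
  · intro g hg
    set r := min (min r1 r2) (δ / 2) with hrd
    have hsub : Metric.ball z r ⊆ Om P.Q x y :=
      (Metric.ball_subset_ball ((min_le_left _ _).trans (min_le_left _ _))).trans hball
    have happr : ∀ w ∈ Metric.ball z r, Appr P R X Y U w (fl R w) := by
      intro w hw
      have h1 := (fl_tendsto hA.app.R_top w).mono_left hU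
      refine ⟨?_, h1⟩
      filter_upwards [hU hnear, near_of_tendsto h1 hw] with j h2 h3
      rw [lt_min_iff, lt_min_iff] at h3
      exact h2 _ h3.1.2
    have hz0 : z ∈ Metric.ball z r := Metric.mem_ball_self hr
    have e : ∀ w ∈ Metric.ball z r, g w = h w - h z := by
      intro w hw
      have h1 := hg w hw _ (happr w hw).2
      have h2 := (hh w (Om_subset _ _ _ (hsub hw)) _ (happr w hw)).sub
        (hh z (Om_subset _ _ _ (hsub hz0)) _ (happr z hz0))
      refine tendsto_nhds_unique h1 (h2.congr fun j => ?_)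
      exact hdiff j _ _
    exact ((hdif.mono hsub).sub_const (h z)).congr e
  · refine Eventually.of_forall fun j v w _ _ => ?_
    rw [sub_self, norm_zero]
    exact hε.le

/-- **`CRA` from the translation invariance** for the functions of the lattice domains. -/
theorem CRA_of_CTI {K : Env → Prop} (hAP : AP K)
    (hfr : ∀ Z, K Z → ∀ a b c d : ℤ, ∀ ω1 ⊆ Z.E \ Bx a b c d, K (Z.freeze (Bx a b c d) ω1))
    (hx : StrictMono x) (hy : StrictMono y) (hA : App x y R X Y) {Ev : ℕ → Env}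
    {Hv Hf : ℕ → ℤ × ℤ → ℂ} {u : ℂ} {C0 : ℝ}
    (hP : ∀ᶠ j in atTop, PH K P (X j) (Y j) (Ev j) (Hv j) (Hf j) u C0)
    (hV : ∀ᶠ j in atTop, ∃ c0, PV P (X j) (Y j) (Ev j) c0)
    (hcr : CTI P x y R (scl R Hv)) : CRA P x y R (scl R Hv) := by
  obtain ⟨n, hn, hn0, hnm, c, hc⟩ := exists_corner P
  exact CRA_of_CTI_corner hx hy hA (hold_scl hAP hfr hx hy hA hP hV) (n := n)
    (by norm_num : (1 : ℝ) < 2 / 3 + 1 / 2)
    (corner_scl hAP hfr hx hy hA hP hV hn hn0 hnm hc) hcr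

/-- the input of W-G: local translation invariance for the primitives of the lattice domains -/
def TIDob : Prop := ∀ (P : PType) (x y : ℤ → ℝ), StrictMono x → StrictMono y →
  ∀ (R : ℕ → ℝ) (X Y : ℕ → ℤ → ℤ), App x y R X Y → ∀ Hv Hf : ℕ → ℤ × ℤ → ℂ,
  (∀ᶠ j in atTop, IsPrim P (X j) (Y j) (Hv j) (Hf j)) → CTI P x y R (scl R Hv)

/-- **`HolDob` from the local translation invariance.** -/
theorem HolDob_of_TI {K : Env → Prop} (hAP : AP K)
    (hfr : ∀ Z, K Z → ∀ a b c d : ℤ, ∀ ω1 ⊆ Z.E \ Bx a b c d, K (Z.freeze (Bx a b c d) ω1))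
    (hK : ∀ (P : PType) (X Y : ℤ → ℤ) (hX : StrictMono X) (hY : StrictMono Y), K (dob P hX hY))
    (hT : TIDob) : HolDob := by
  intro P x y hx hy R X Y hA Hv Hf hp
  have key : ∀ j, ∃ E : Env, IsPrim P (X j) (Y j) (Hv j) (Hf j) →
      PH K P (X j) (Y j) E (Hv j) (Hf j) (ph (-1)) 2 ∧ ∃ c0, PV P (X j) (Y j) E c0 := by
    intro j
    by_cases h : IsPrim P (X j) (Y j) (Hv j) (Hf j)
    · obtain ⟨E, hE⟩ := h.pH hK
      exact ⟨E, fun _ => hE⟩
    · exact ⟨dob P (X := fun i => i) (Y := fun i => i) strictMono_id strictMono_id,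
        fun h' => absurd h' h⟩
  choose Ev hk using key
  have hPH := hp.mono fun j hj => (hk j hj).1
  exact CRA_of_CTI hAP hfr hx hy hA hPH (hp.mono fun j hj => (hk j hj).2)
    (hT P x y hx hy R X Y hA Hv Hf hp)

end Pool.Agent.H66.W
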