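import Mathlib
import Pool.Agent.H66.W.TopH
import Pool.Agent.H76.M7.TopH

set_option autoImplicit false

/-! `Q1` and `Q1SLE` from the local translation invariance `TIDob` (W-G). -/

namespace Pool.Agent.H66.W

open Pool.Agent.H76.M7 Pool.Agent.Q1 Pool.Agent.Q1.M4 Pool.Agent.Q1.M6c

theorem holDob_of_tiDob (hT : TIDob) : Pool.Agent.Q1.M4.HolDob :=
  HolDob_of_TI ap_planeK (fun _ hZ _ _ _ _ _ _ => planeK_freeze hZ _ _) planeK_dob hT

/-- **Both statements from the local translation invariance.** -/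
theorem q1_and_sle_of_tiDob (hT : TIDob) :
    Pool.Agent.H81.Q1.Q1 ∧ Pool.Agent.H82.Q1.Q1SLE :=
  ⟨q1_of_holDob (holDob_of_tiDob hT), q1sle_of_holDob (holDob_of_tiDob hT)⟩

end Pool.Agent.H66.W
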